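import Mathlib

/-! L² estimates for power series on circles. -/

namespace Pool.Agent.H72.BohrL2

open Complex Filter Topology MeasureTheory Polynomial

/-- Partial sum polynomial. -/
noncomputable def pp (c : ℕ → ℂ) (N : ℕ) : ℂ[X] := ∑ n ∈ Finset.range N, monomial n (c n)

lemma pp_coeff (c : ℕ → ℂ) (N i : ℕ) : (pp c N).coeff i = if i < N then c i else 0 := by
  unfold pp
  rw [Polynomial.finsetSum_coeff]
  simp only [Polynomial.coeff_monomial]
  rw [Finset.sum_ite_eq']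
  simp

lemma pp_eval (c : ℕ → ℂ) (N : ℕ) (z : ℂ) :
    (pp c N).eval z = ∑ n ∈ Finset.range N, c n * z ^ n := by
  unfold pp
  rw [Polynomial.eval_finsetSum]
  simp [Polynomial.eval_monomial]

lemma pp_sum (c : ℕ → ℂ) (N : ℕ) :
    ∑ i ∈ (pp c N).support, ‖(pp c N).coeff i‖ ^ 2 = ∑ i ∈ Finset.range N, ‖c i‖ ^ 2 := by
  have h1 : ∑ i ∈ (pp c N).support, ‖(pp c N).coeff i‖ ^ 2
      = ∑ i ∈ Finset.range N, ‖(pp c N).coeff i‖ ^ 2 := by
    refine Finset.sum_subset ?_ ?_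
    · intro i hi
      rw [Polynomial.mem_support_iff, pp_coeff] at hi
      by_contra hcon
      rw [Finset.mem_range] at hcon
      simp [hcon] at hi
    · intro i _ hi
      rw [Polynomial.notMem_support_iff] at hi
      simp [hi]
  rw [h1]
  refine Finset.sum_congr rfl fun i hi => ?_
  rw [pp_coeff, if_pos (Finset.mem_range.mp hi)]

/-- Parseval for absolutely convergent power series on the unit circle. -/
lemma parseval {c : ℕ → ℂ} (hc : Summable (fun n => ‖c n‖)) :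
    HasSum (fun n => ‖c n‖ ^ 2) (Real.circleAverage (fun z => ‖∑' n, c n * z ^ n‖ ^ 2) 0 1) := by
  rw [hasSum_iff_tendsto_nat_of_nonneg (fun n => by positivity)]
  have h1 : ∀ N : ℕ, ∑ i ∈ Finset.range N, ‖c i‖ ^ 2
      = Real.circleAverage (fun z => ‖(pp c N).eval z‖ ^ 2) 0 1 := by
    intro N
    rw [← pp_sum, Polynomial.sum_sq_norm_coeff_eq_circleAverage]
  simp_rw [h1, Real.circleAverage_def]
  refine Tendsto.const_smul ?_ _
  set S := ∑' n, ‖c n‖ with hS
  have hz : ∀ θ : ℝ, ‖circleMap 0 1 θ‖ = 1 := by intro θ; simp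
  have hpart : ∀ (N : ℕ) (z : ℂ), ‖z‖ = 1 → ‖(pp c N).eval z‖ ≤ S := by
    intro N z hz1
    rw [pp_eval]
    refine (norm_sum_le _ _).trans ?_
    refine le_trans (le_of_eq ?_) (hc.sum_le_tsum (Finset.range N) (fun _ _ => norm_nonneg _))
    refine Finset.sum_congr rfl fun i _ => ?_
    rw [norm_mul, norm_pow, hz1, one_pow, mul_one]
  refine intervalIntegral.tendsto_integral_filter_of_dominated_convergence (fun _ => S ^ 2)
    ?_ ?_ ?_ ?_
  · refine Eventually.of_forall fun N => ?_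
    have : Continuous fun θ : ℝ => ‖(pp c N).eval (circleMap 0 1 θ)‖ ^ 2 := by
      have h2 : Continuous fun θ : ℝ => (pp c N).eval (circleMap 0 1 θ) :=
        (pp c N).continuous.comp (continuous_circleMap 0 1)
      exact (h2.norm).pow 2
    exact this.aestronglyMeasurable
  · refine Eventually.of_forall fun N => ?_
    refine Eventually.of_forall fun θ _ => ?_
    rw [Real.norm_of_nonneg (by positivity)]
    have := hpart N _ (hz θ)
    gcongr
  · exact intervalIntegrable_const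
  · refine Eventually.of_forall fun θ _ => ?_
    have hs : Summable (fun n => c n * (circleMap 0 1 θ) ^ n) := by
      refine Summable.of_norm ?_
      refine hc.congr fun n => ?_
      rw [norm_mul, norm_pow, hz, one_pow, mul_one]
    have := hs.hasSum.tendsto_sum_nat
    simp_rw [pp_eval]
    exact (this.norm).pow 2

lemma circInt {c : ℕ → ℂ} (hc : Summable (fun n => ‖c n‖)) :
    CircleIntegrable (fun z => ‖∑' n, c n * z ^ n‖ ^ 2) 0 1 := by
  unfold CircleIntegrable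
  have hz : ∀ θ : ℝ, ‖circleMap 0 1 θ‖ = 1 := by intro θ; simp
  have h1 : Continuous fun θ : ℝ => ∑' n, c n * (circleMap 0 1 θ) ^ n := by
    refine continuous_tsum (fun n => ?_) hc (fun n θ => ?_)
    · exact continuous_const.mul ((continuous_circleMap 0 1).pow n)
    · rw [norm_mul, norm_pow, hz, one_pow, mul_one]
  exact ((h1.norm).pow 2).intervalIntegrable _ _

/-- If `|G| ≤ |H|` on the circle `|z| = t`, then the same inequality holds for the `ℓ²` sums of
the coefficients. -/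
lemma L2_le {u v : ℕ → ℂ} {G H : ℂ → ℂ} {t : ℝ} (ht0 : 0 ≤ t)
    (hu : Summable (fun n => ‖u n‖ * t ^ n)) (hv : Summable (fun n => ‖v n‖ * t ^ n))
    (hG : ∀ z : ℂ, ‖z‖ = t → HasSum (fun n => u n * z ^ n) (G z))
    (hH : ∀ z : ℂ, ‖z‖ = t → HasSum (fun n => v n * z ^ n) (H z))
    (hle : ∀ z : ℂ, ‖z‖ = t → ‖G z‖ ≤ ‖H z‖) :
    Summable (fun n => ‖u n‖ ^ 2 * (t ^ 2) ^ n) ∧ Summable (fun n => ‖v n‖ ^ 2 * (t ^ 2) ^ n) ∧
    ∑' n, ‖u n‖ ^ 2 * (t ^ 2) ^ n ≤ ∑' n, ‖v n‖ ^ 2 * (t ^ 2) ^ n := by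
  have hcu : Summable (fun n => ‖u n * (t : ℂ) ^ n‖) := by
    refine hu.congr fun n => ?_
    rw [norm_mul, norm_pow, Complex.norm_of_nonneg ht0]
  have hcv : Summable (fun n => ‖v n * (t : ℂ) ^ n‖) := by
    refine hv.congr fun n => ?_
    rw [norm_mul, norm_pow, Complex.norm_of_nonneg ht0]
  have hpu := parseval hcu
  have hpv := parseval hcv
  have e : ∀ (w : ℕ → ℂ) (n : ℕ), ‖w n * (t : ℂ) ^ n‖ ^ 2 = ‖w n‖ ^ 2 * (t ^ 2) ^ n := by
    intro w n
    rw [norm_mul, norm_pow, Complex.norm_of_nonneg ht0, mul_pow, ← pow_mul, ← pow_mul, mul_comm n 2]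
  simp_rw [e] at hpu hpv
  refine ⟨hpu.summable, hpv.summable, ?_⟩
  rw [hpu.tsum_eq, hpv.tsum_eq]
  refine Real.circleAverage_mono (circInt hcu) (circInt hcv) ?_
  intro z hz
  have hz1 : ‖z‖ = 1 := by simpa using hz
  have hzt : ‖(t : ℂ) * z‖ = t := by
    rw [norm_mul, hz1, mul_one, Complex.norm_of_nonneg ht0]
  have e2 : ∀ (w : ℕ → ℂ), (fun n => w n * (t : ℂ) ^ n * z ^ n) = fun n => w n * ((t : ℂ) * z) ^ n := by
    intro w; funext n; rw [mul_pow]; ring
  simp only [e2]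
  rw [(hG _ hzt).tsum_eq, (hH _ hzt).tsum_eq]
  have := hle _ hzt
  gcongr

lemma int_series {α : ℕ → ℝ} {y : ℝ} (hα : ∀ n, 0 ≤ α n) (hy : 0 ≤ y)
    (hs : Summable (fun n => α n * y ^ n)) :
    HasSum (fun n => α n / (n + 1) * y ^ (n + 1)) (∫ x in (0:ℝ)..y, ∑' n, α n * x ^ n) ∧
    IntervalIntegrable (fun x => ∑' n, α n * x ^ n) volume 0 y := by
  have hbd : ∀ n : ℕ, ∀ x ∈ Set.Icc (0:ℝ) y, ‖α n * x ^ n‖ ≤ α n * y ^ n := by
    intro n x hx
    rw [Real.norm_of_nonneg (mul_nonneg (hα n) (pow_nonneg hx.1 n))]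
    exact mul_le_mul_of_nonneg_left (pow_le_pow_left₀ hx.1 hx.2 n) (hα n)
  have hsub : ∀ x ∈ Set.uIoc (0:ℝ) y, x ∈ Set.Icc (0:ℝ) y := by
    intro x hx
    rw [Set.uIoc_of_le hy] at hx
    exact ⟨hx.1.le, hx.2⟩
  have hcont : ContinuousOn (fun x => ∑' n, α n * x ^ n) (Set.Icc 0 y) := by
    refine continuousOn_tsum (fun n => ?_) hs (fun n x hx => hbd n x hx)
    exact (continuous_const.mul (continuous_pow n)).continuousOn
  constructor
  · have h1 := intervalIntegral.hasSum_integral_of_dominated_convergence (μ := volume) (a := 0)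
      (b := y) (F := fun n x => α n * x ^ n) (f := fun x => ∑' n, α n * x ^ n)
      (fun n _ => α n * y ^ n) ?_ ?_ ?_ ?_ ?_
    · convert! h1 using 1
      funext n
      rw [intervalIntegral.integral_const_mul, integral_pow]
      simp
      ring
    · intro n
      exact (continuous_const.mul (continuous_pow n)).aestronglyMeasurable
    · intro n
      exact Eventually.of_forall fun x hx => hbd n x (hsub x hx)
    · exact Eventually.of_forall fun x _ => hs
    · exact intervalIntegrable_const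
    · refine Eventually.of_forall fun x hx => ?_
      have : Summable fun n => α n * x ^ n := Summable.of_norm_bounded hs (fun n => hbd n x (hsub x hx))
      exact this.hasSum
  · rw [intervalIntegrable_iff_integrableOn_Icc_of_le hy]
    exact hcont.integrableOn_Icc

/-- One integration of an inequality between power series with nonnegative coefficients. -/
lemma int_once {α β : ℕ → ℝ} (hα : ∀ n, 0 ≤ α n) (hβ : ∀ n, 0 ≤ β n)
    (hαs : ∀ y : ℝ, 0 ≤ y → y < 1 → Summable (fun n => α n * y ^ n))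
    (hβs : ∀ y : ℝ, 0 ≤ y → y < 1 → Summable (fun n => β n * y ^ n))
    (h : ∀ y : ℝ, 0 < y → y < 1 → ∑' n, α n * y ^ n ≤ ∑' n, β n * y ^ n)
    {y : ℝ} (hy0 : 0 < y) (hy1 : y < 1) :
    ∑' n : ℕ, α n / (n + 1) * y ^ n ≤ ∑' n : ℕ, β n / (n + 1) * y ^ n := by
  have hA := int_series hα hy0.le (hαs y hy0.le hy1)
  have hB := int_series hβ hy0.le (hβs y hy0.le hy1)
  have h1 : ∑' n : ℕ, α n / (n + 1) * y ^ (n + 1) ≤ ∑' n : ℕ, β n / (n + 1) * y ^ (n + 1) := by
    rw [hA.1.tsum_eq, hB.1.tsum_eq]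
    refine intervalIntegral.integral_mono_on_of_le_Ioo hy0.le hA.2 hB.2 ?_
    intro x hx
    exact h x hx.1 (hx.2.trans hy1)
  have e : ∀ γ : ℕ → ℝ, ∑' n : ℕ, γ n / (n + 1) * y ^ (n + 1)
      = (∑' n : ℕ, γ n / (n + 1) * y ^ n) * y := by
    intro γ
    rw [← tsum_mul_right]
    refine tsum_congr fun n => ?_
    rw [pow_succ]; ring
  rw [e, e] at h1
  exact le_of_mul_le_mul_right h1 hy0

lemma summable_div {α : ℕ → ℝ} (hα : ∀ n, 0 ≤ α n) {y : ℝ} (hy : 0 ≤ y)
    (hs : Summable (fun n => α n * y ^ n)) : Summable (fun n : ℕ => α n / (n + 1) * y ^ n) := by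
  refine Summable.of_nonneg_of_le (fun n => ?_) (fun n => ?_) hs
  · have := hα n
    positivity
  · have h1 : α n / ((n : ℝ) + 1) ≤ α n := by
      refine div_le_self (hα n) ?_
      have : (0 : ℝ) ≤ n := Nat.cast_nonneg n
      linarith
    exact mul_le_mul_of_nonneg_right h1 (pow_nonneg hy n)

/-- Two integrations. -/
lemma int_twice {α β : ℕ → ℝ} (hα : ∀ n, 0 ≤ α n) (hβ : ∀ n, 0 ≤ β n)
    (hαs : ∀ y : ℝ, 0 ≤ y → y < 1 → Summable (fun n => α n * y ^ n))
    (hβs : ∀ y : ℝ, 0 ≤ y → y < 1 → Summable (fun n => β n * y ^ n))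
    (h : ∀ y : ℝ, 0 < y → y < 1 → ∑' n, α n * y ^ n ≤ ∑' n, β n * y ^ n)
    {y : ℝ} (hy0 : 0 < y) (hy1 : y < 1) :
    ∑' n : ℕ, α n / (n + 1) ^ 2 * y ^ n ≤ ∑' n : ℕ, β n / (n + 1) ^ 2 * y ^ n := by
  have hα' : ∀ n : ℕ, 0 ≤ α n / (n + 1) := fun n => by have := hα n; positivity
  have hβ' : ∀ n : ℕ, 0 ≤ β n / (n + 1) := fun n => by have := hβ n; positivity
  have h1 := int_once (α := fun n : ℕ => α n / (n + 1)) (β := fun n : ℕ => β n / (n + 1)) hα' hβ'
    (fun y h0 h1 => summable_div hα h0 (hαs y h0 h1))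
    (fun y h0 h1 => summable_div hβ h0 (hβs y h0 h1))
    (fun y h0 h1 => int_once hα hβ hαs hβs h h0 h1) hy0 hy1
  have e : ∀ γ : ℕ → ℝ, ∑' n : ℕ, γ n / (n + 1) / (n + 1) * y ^ n
      = ∑' n : ℕ, γ n / (n + 1) ^ 2 * y ^ n := by
    intro γ
    refine tsum_congr fun n => ?_
    rw [div_div, ← pow_two]
  rw [e, e] at h1
  exact h1

end Pool.Agent.H72.BohrL2
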