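import Mathlib

/-! Schwarz-Pick type lemma for a pair of analytic functions with `|p| ≤ |q|`. -/

namespace Pool.Agent.H72.BohrPick

open Complex Filter Topology Metric Set

/-- If `|p| ≤ |q|` on the unit disc, then `p = ω q` with `ω` analytic and bounded by one. -/
lemma omega_exists {p q : ℂ → ℂ} (hp : DifferentiableOn ℂ p (ball 0 1))
    (hq : DifferentiableOn ℂ q (ball 0 1)) (hle : ∀ z ∈ ball (0:ℂ) 1, ‖p z‖ ≤ ‖q z‖)
    (hq0 : q 0 ≠ 0) :
    ∃ ω : ℂ → ℂ, DifferentiableOn ℂ ω (ball 0 1) ∧ (∀ z ∈ ball (0:ℂ) 1, ‖ω z‖ ≤ 1) ∧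
      ∀ z ∈ ball (0:ℂ) 1, p z = ω z * q z := by
  set F : ℂ → ℂ := fun w => p w / q w with hF
  set ω : ℂ → ℂ := fun z => limUnder (𝓝[≠] z) F with hω
  have hqA : AnalyticOnNhd ℂ q (ball 0 1) := hq.analyticOnNhd isOpen_ball
  have hconn : IsPreconnected (ball (0:ℂ) 1) := (convex_ball 0 1).isPreconnected
  have h0mem : (0:ℂ) ∈ ball (0:ℂ) 1 := mem_ball_self one_pos
  have hne : ∀ z ∈ ball (0:ℂ) 1, ∀ᶠ w in 𝓝[≠] z, q w ≠ 0 := by
    intro z hz
    by_contra hcon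
    have hfreq : ∃ᶠ w in 𝓝[≠] z, q w = 0 := fun h => hcon (h.mono fun _ hw => hw)
    exact hq0 (hqA.eqOn_zero_of_preconnected_of_frequently_eq_zero hconn hz hfreq h0mem)
  have hpd : ∀ w ∈ ball (0:ℂ) 1, DifferentiableAt ℂ p w := fun w hw =>
    hp.differentiableAt (isOpen_ball.mem_nhds hw)
  have hqd : ∀ w ∈ ball (0:ℂ) 1, DifferentiableAt ℂ q w := fun w hw =>
    hq.differentiableAt (isOpen_ball.mem_nhds hw)
  have hFd : ∀ w ∈ ball (0:ℂ) 1, q w ≠ 0 → DifferentiableAt ℂ F w := fun w hw h =>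
    (hpd w hw).div (hqd w hw) h
  have hωeq : ∀ w ∈ ball (0:ℂ) 1, q w ≠ 0 → ω w = F w := by
    intro w hw h
    exact ((hFd w hw h).continuousAt.tendsto.mono_left nhdsWithin_le_nhds).limUnder_eq
  have hFle : ∀ w ∈ ball (0:ℂ) 1, ‖F w‖ ≤ 1 := by
    intro w hw
    simp only [hF, norm_div]
    exact div_le_one_of_le₀ (hle w hw) (norm_nonneg _)
  have hωd : ∀ z ∈ ball (0:ℂ) 1, DifferentiableAt ℂ ω z := by
    intro z hz
    have h1 : ∀ᶠ w in 𝓝 z, w ≠ z → q w ≠ 0 := eventually_nhdsWithin_iff.mp (hne z hz)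
    have h2 : ∀ᶠ w in 𝓝 z, w ∈ ball (0:ℂ) 1 := isOpen_ball.mem_nhds hz
    set s : Set ℂ := {w | (w ≠ z → q w ≠ 0) ∧ w ∈ ball (0:ℂ) 1} with hs
    have hsn : s ∈ 𝓝 z := by filter_upwards [h1, h2] with w hw1 hw2 using ⟨hw1, hw2⟩
    have hd : DifferentiableOn ℂ F (s \ {z}) := fun w hw =>
      (hFd w hw.1.2 (hw.1.1 hw.2)).differentiableWithinAt
    have hb : BddAbove (norm ∘ F '' (s \ {z})) := by
      refine ⟨1, ?_⟩
      rintro _ ⟨w, hw, rfl⟩
      exact hFle w hw.1.2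
    have hu := differentiableOn_update_limUnder_of_bddAbove hsn hd hb
    have hu' := hu.differentiableAt hsn
    refine hu'.congr_of_eventuallyEq ?_
    filter_upwards [hsn] with w hw
    by_cases hwz : w = z
    · rw [hwz, Function.update_self]
    · rw [Function.update_of_ne hwz]
      exact hωeq w hw.2 (hw.1 hwz)
  refine ⟨ω, fun z hz => (hωd z hz).differentiableWithinAt, ?_, ?_⟩
  · intro z hz
    have hc := (hωd z hz).continuousAt.norm.tendsto.mono_left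
      (nhdsWithin_le_nhds : 𝓝[≠] z ≤ 𝓝 z)
    refine le_of_tendsto hc ?_
    have h2 : ∀ᶠ w in 𝓝[≠] z, w ∈ ball (0:ℂ) 1 :=
      nhdsWithin_le_nhds (isOpen_ball.mem_nhds hz)
    filter_upwards [hne z hz, h2] with w hw hwb
    rw [hωeq w hwb hw]
    exact hFle w hwb
  · intro z hz
    by_cases h : q z = 0
    · have : p z = 0 := by
        have := hle z hz
        rw [h, norm_zero] at this
        exact norm_le_zero_iff.mp this
      rw [h, this, mul_zero]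
    · rw [hωeq z hz h]
      simp only [hF]
      rw [div_mul_cancel₀ _ h]

lemma norm_sub_le_norm_one_sub {w c : ℂ} (hw : ‖w‖ ≤ 1) (hc : ‖c‖ ≤ 1) :
    ‖w - c‖ ≤ ‖1 - (starRingEnd ℂ) c * w‖ := by
  have e : ‖1 - (starRingEnd ℂ) c * w‖ ^ 2 - ‖w - c‖ ^ 2 = (1 - ‖w‖ ^ 2) * (1 - ‖c‖ ^ 2) := by
    simp only [← Complex.normSq_eq_norm_sq, Complex.normSq_apply]
    simp
    ring
  have h1 : 0 ≤ (1 - ‖w‖ ^ 2) * (1 - ‖c‖ ^ 2) := by
    have : ‖w‖ ^ 2 ≤ 1 := pow_le_one₀ (norm_nonneg _) hw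
    have : ‖c‖ ^ 2 ≤ 1 := pow_le_one₀ (norm_nonneg _) hc
    exact mul_nonneg (by linarith) (by linarith)
  exact le_of_sq_le_sq (by linarith) (norm_nonneg _)

/-- Schwarz-Pick inequality for a map into the closed disc. -/
lemma schwarz_pick {ω : ℂ → ℂ} (hω : DifferentiableOn ℂ ω (ball 0 1))
    (hle : ∀ z ∈ ball (0:ℂ) 1, ‖ω z‖ ≤ 1) {z : ℂ} (hz : z ∈ ball (0:ℂ) 1) :
    ‖ω z - ω 0‖ ≤ ‖z‖ * ‖1 - (starRingEnd ℂ) (ω 0) * ω z‖ := by
  have h0mem : (0:ℂ) ∈ ball (0:ℂ) 1 := mem_ball_self one_pos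
  set c := ω 0 with hc
  rcases eq_or_lt_of_le (hle 0 h0mem) with h1 | h1
  · -- constant case
    have hmax : IsMaxOn (norm ∘ ω) (ball 0 1) 0 := by
      intro w hw
      simp only [Set.mem_ofPred_eq, Function.comp_apply]
      rw [h1]
      exact hle w hw
    have := Complex.eqOn_of_isPreconnected_of_isMaxOn_norm (convex_ball (0:ℂ) 1).isPreconnected
      isOpen_ball hω h0mem hmax hz
    simp only [Function.const] at this
    rw [this, ← hc, sub_self, norm_zero]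
    positivity
  · have hne : ∀ w ∈ ball (0:ℂ) 1, 1 - (starRingEnd ℂ) c * ω w ≠ 0 := by
      intro w hw h
      have h2 : (starRingEnd ℂ) c * ω w = 1 := by linear_combination -h
      have h3 : ‖(starRingEnd ℂ) c * ω w‖ < 1 := by
        rw [norm_mul, RCLike.norm_conj]
        calc ‖c‖ * ‖ω w‖ ≤ ‖c‖ * 1 := mul_le_mul_of_nonneg_left (hle w hw) (norm_nonneg _)
          _ < 1 := by rw [mul_one]; exact h1
      rw [h2, norm_one] at h3
      exact lt_irrefl _ h3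
    set φ : ℂ → ℂ := fun w => (ω w - c) / (1 - (starRingEnd ℂ) c * ω w) with hφ
    have hφd : DifferentiableOn ℂ φ (ball 0 1) := by
      refine (hω.sub_const c).div ?_ hne
      exact (differentiableOn_const 1).sub (hω.const_mul _)
    have hφm : MapsTo φ (ball 0 1) (closedBall 0 1) := by
      intro w hw
      rw [mem_closedBall_zero_iff]
      simp only [hφ, norm_div]
      exact div_le_one_of_le₀ (norm_sub_le_norm_one_sub (hle w hw) h1.le) (norm_nonneg _)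
    have hφ0 : φ 0 = 0 := by simp [hφ, hc]
    have hS := Complex.norm_le_norm_of_mapsTo_ball hφd hφm hφ0 (by simpa using hz)
    have hpos : 0 < ‖1 - (starRingEnd ℂ) c * ω z‖ := norm_pos_iff.mpr (hne z hz)
    simp only [hφ, norm_div] at hS
    rwa [div_le_iff₀ hpos] at hS

/-- Schwarz-Pick inequality for pairs. -/
lemma pair_pick {p q : ℂ → ℂ} {w₀ : ℂ} (hp : DifferentiableOn ℂ p (ball 0 1))
    (hq : DifferentiableOn ℂ q (ball 0 1)) (hle : ∀ z ∈ ball (0:ℂ) 1, ‖p z‖ ≤ ‖q z‖)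
    (hq0 : q 0 ≠ 0) (h0 : p 0 = w₀ * q 0) {z : ℂ} (hz : z ∈ ball (0:ℂ) 1) :
    ‖p z - w₀ * q z‖ ≤ ‖z * (q z - (starRingEnd ℂ) w₀ * p z)‖ := by
  obtain ⟨ω, hωd, hω1, hωq⟩ := omega_exists hp hq hle hq0
  have h0mem : (0:ℂ) ∈ ball (0:ℂ) 1 := mem_ball_self one_pos
  have hω0 : ω 0 = w₀ := mul_right_cancel₀ hq0 ((hωq 0 h0mem).symm.trans h0)
  have hS := schwarz_pick hωd hω1 hz
  rw [hω0] at hS
  have e1 : p z - w₀ * q z = (ω z - w₀) * q z := by rw [hωq z hz]; ring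
  have e2 : z * (q z - (starRingEnd ℂ) w₀ * p z) = z * (1 - (starRingEnd ℂ) w₀ * ω z) * q z := by
    rw [hωq z hz]; ring
  rw [e1, e2, norm_mul, norm_mul, norm_mul]
  exact mul_le_mul_of_nonneg_right hS (norm_nonneg _)

end Pool.Agent.H72.BohrPick
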