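import Mathlib

/-! Real-variable inequalities used in the proof of the Bohr inequality for harmonic mappings. -/

namespace Pool.Agent.H72.BohrReal

/-- `(Z - s Y)^2 - ρ (Y - s Z)^2` decreases in `Y` as long as `Y ≤ Z`. -/
lemma mono_Y {s ρ Y y Z : ℝ} (hs0 : 0 ≤ s) (hs1 : s ≤ 1) (hρ0 : 0 ≤ ρ) (hρ1 : ρ ≤ 1)
    (hY0 : 0 ≤ Y) (hYy : Y ≤ y) (hyZ : y ≤ Z) :
    (Z - s * y) ^ 2 - ρ * (y - s * Z) ^ 2 ≤ (Z - s * Y) ^ 2 - ρ * (Y - s * Z) ^ 2 := by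
  have key : (Z - s * Y) ^ 2 - ρ * (Y - s * Z) ^ 2 - ((Z - s * y) ^ 2 - ρ * (y - s * Z) ^ 2)
      = (y - Y) * (s * (1 - ρ) * (2 * Z - (Y + y)) + (1 - s) * (s + ρ) * (Y + y)) := by ring
  have h1 : 0 ≤ s * (1 - ρ) * (2 * Z - (Y + y)) :=
    mul_nonneg (mul_nonneg hs0 (by linarith)) (by linarith)
  have h2 : 0 ≤ (1 - s) * (s + ρ) * (Y + y) :=
    mul_nonneg (mul_nonneg (by linarith) (by linarith)) (by linarith)
  have h3 : 0 ≤ (y - Y) * (s * (1 - ρ) * (2 * Z - (Y + y)) + (1 - s) * (s + ρ) * (Y + y)) :=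
    mul_nonneg (by linarith) (by linarith)
  linarith

/-- `(Z - s y)^2 - ρ (y - s Z)^2` is strictly increasing in `Z ≥ y`. -/
lemma mono_Z {s ρ y Z Z₀ : ℝ} (hs0 : 0 ≤ s) (hs1 : s ≤ 1) (hρ0 : 0 ≤ ρ) (hρ1 : ρ < 1)
    (hy0 : 0 ≤ y) (hyZ : y ≤ Z₀) (hZ : Z₀ < Z) :
    (Z₀ - s * y) ^ 2 - ρ * (y - s * Z₀) ^ 2 < (Z - s * y) ^ 2 - ρ * (y - s * Z) ^ 2 := by
  have key : (Z - s * y) ^ 2 - ρ * (y - s * Z) ^ 2 - ((Z₀ - s * y) ^ 2 - ρ * (y - s * Z₀) ^ 2)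
      = (Z - Z₀) * ((Z + Z₀ - 2 * y) * (1 - ρ * s ^ 2) + 2 * y * ((1 - s) * (1 + ρ * s))) := by
    ring
  have hs3 : s ^ 2 ≤ 1 := by nlinarith
  have hs2 : ρ * s ^ 2 < 1 := by nlinarith
  have h1 : 0 < (Z + Z₀ - 2 * y) * (1 - ρ * s ^ 2) := mul_pos (by linarith) (by linarith)
  have h2 : 0 ≤ 2 * y * ((1 - s) * (1 + ρ * s)) := by
    have : 0 ≤ ρ * s := mul_nonneg hρ0 hs0
    exact mul_nonneg (by linarith) (mul_nonneg (by linarith) (by linarith))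
  have h3 : 0 < (Z - Z₀) *
      ((Z + Z₀ - 2 * y) * (1 - ρ * s ^ 2) + 2 * y * ((1 - s) * (1 + ρ * s))) :=
    mul_pos (by linarith) (by linarith)
  linarith

/-- Comparison principle. -/
lemma Z_le {s ρ Y y Z Z₀ G : ℝ} (hs0 : 0 ≤ s) (hs1 : s ≤ 1) (hρ0 : 0 ≤ ρ) (hρ1 : ρ < 1)
    (hY0 : 0 ≤ Y) (hYy : Y ≤ y) (hyZ : y ≤ Z₀)
    (hq : (Z - s * Y) ^ 2 - ρ * (Y - s * Z) ^ 2 ≤ G)
    (hQ : G ≤ (Z₀ - s * y) ^ 2 - ρ * (y - s * Z₀) ^ 2) : Z ≤ Z₀ := by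
  by_contra hcon
  push Not at hcon
  have h1 := mono_Y hs0 hs1 hρ0 hρ1.le hY0 hYy (hyZ.trans hcon.le)
  have h2 := mono_Z hs0 hs1 hρ0 hρ1 (hY0.trans hYy) hyZ hcon
  linarith

/-- Polynomial inequality (A0). -/
lemma A0_nonneg {x ρ : ℝ} (hx0 : 0 < x) (hxρ : x ≤ ρ) (hρ1 : ρ ≤ 1) (hp : x * ρ ≤ 1 / 2) :
    0 ≤ (1 + ρ - 2 * x) ^ 2 - ρ * (ρ - x) ^ 2 - x * ρ * (1 - x) / 4 := by
  have hx2 : x ^ 2 ≤ 1 / 2 := by nlinarith
  have hx1 : x < 1 := by nlinarith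
  have h1 : ρ * (ρ - x) ^ 2 ≤ (ρ - x) ^ 2 := by nlinarith [sq_nonneg (ρ - x)]
  have h2 : (1 + ρ - 2 * x) ^ 2 - (ρ - x) ^ 2 = (1 - x) * (1 + 2 * ρ - 3 * x) := by ring
  have h3 : x * ρ / 4 ≤ 1 + 2 * ρ - 3 * x := by nlinarith
  have h4 : 0 ≤ (1 - x) * (1 + 2 * ρ - 3 * x - x * ρ / 4) := mul_nonneg (by linarith) (by linarith)
  nlinarith

/-- Polynomial inequality (A1): here `d = ρ - x`. -/
lemma A1_nonneg {x ρ : ℝ} (hx0 : 0 < x) (hxρ : x ≤ ρ) (hρ1 : ρ ≤ 1)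
    (h : 2 * x - 1 ≤ (1 + 2 * x) * (ρ - x)) :
    0 ≤ (1 + ρ - 2 * x) ^ 2 - ρ * (1 - ρ) ^ 2 - x * ρ * (1 - x) := by
  have hd0 : 0 ≤ ρ - x := by linarith
  have hd1 : ρ - x ≤ 1 - x := by linarith
  have e : (1 + ρ - 2 * x) ^ 2 - ρ * (1 - ρ) ^ 2 - x * ρ * (1 - x)
      = (1 - x) * ((1 + 2 * x) * (ρ - x) - (2 * x - 1)) + 2 * (1 - x) * (ρ - x) ^ 2
        + ((1 - x) - (ρ - x)) * (ρ - x) ^ 2 := by ring
  rw [e]
  have h1 : 0 ≤ 1 - x := by linarith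
  have h2 : 0 ≤ (1 - x) * ((1 + 2 * x) * (ρ - x) - (2 * x - 1)) := mul_nonneg h1 (by linarith)
  have h3 : 0 ≤ 2 * (1 - x) * (ρ - x) ^ 2 := by positivity
  have h4 : 0 ≤ ((1 - x) - (ρ - x)) * (ρ - x) ^ 2 := mul_nonneg (by linarith) (sq_nonneg _)
  linarith

/-- (B): for `x ≥ 1/2` and `ρ` close to `x`. -/
lemma B_aux {x p : ℝ} (hx : 1 / 2 ≤ x) (hp2 : p ≤ 1 / 2) (hx2 : x ^ 2 ≤ p) (hx3 : x ≤ 3 / 4)
    (hpx : p * (1 + 2 * x) ≤ 2 * x ^ 3 + 3 * x ^ 2 - x) :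
    (8 - 7 * x + p) ^ 2 ≤ 32 * (1 - p) := by
  have hp0 : 0 ≤ p := le_trans (sq_nonneg x) hx2
  have h1 : 0 ≤ 8 - 7 * x + p := by linarith
  rcases le_or_gt (9 / 14) x with hx9 | hx9
  · have h2 : 8 - 7 * x + p ≤ 4 := by linarith
    have h3 : (8 - 7 * x + p) ^ 2 ≤ 4 ^ 2 := by gcongr
    linarith
  · have h5 : (x - 1 / 2) * (2 * x ^ 2 + 0.58 * x - 1.21) ≤ 0 :=
      mul_nonpos_of_nonneg_of_nonpos (by linarith) (by nlinarith)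
    have h4 : 0 ≤ (1.71 * x - 0.605 - p) * (1 + 2 * x) := by
      have e : (1.71 * x - 0.605 - p) * (1 + 2 * x) =
        (2 * x ^ 3 + 3 * x ^ 2 - x - p * (1 + 2 * x))
          - (x - 1 / 2) * (2 * x ^ 2 + 0.58 * x - 1.21) := by ring
      rw [e]; linarith
    have hP : p ≤ 1.71 * x - 0.605 := by
      by_contra hcon
      push Not at hcon
      have : (1.71 * x - 0.605 - p) * (1 + 2 * x) < 0 :=
        mul_neg_of_neg_of_pos (by linarith) (by linarith)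
      linarith
    have h2 : 8 - 7 * x + p ≤ 7.395 - 5.29 * x := by linarith
    have h3 : (8 - 7 * x + p) ^ 2 ≤ (7.395 - 5.29 * x) ^ 2 := by gcongr
    have h6 : (7.395 - 5.29 * x) ^ 2 ≤ 32 * (1 - (1.71 * x - 0.605)) := by
      have h7 : (x - 1 / 2) * (x - 9 / 14) ≤ 0 :=
        mul_nonpos_of_nonneg_of_nonpos (by linarith) (by linarith)
      nlinarith
    linarith

lemma B_ineq {x ρ m : ℝ} (hx : 1 / 2 ≤ x) (hxρ : x ≤ ρ)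
    (hm1 : m ≤ 1) (hp : x * ρ = (6 * m - 1 - m ^ 2) / 8)
    (h : (1 + 2 * x) * (ρ - x) ≤ 2 * x - 1) :
    x * (x * ρ) ≤ (4 * x - 1 - m) ^ 2 := by
  have hx2' : x ^ 2 ≤ x * ρ := by nlinarith
  have hpx' : (x * ρ) * (1 + 2 * x) ≤ 2 * x ^ 3 + 3 * x ^ 2 - x := by nlinarith
  generalize x * ρ = p at *
  have hp2 : p ≤ 1 / 2 := by rw [hp]; nlinarith [sq_nonneg (m - 1)]
  have hx3 : x ≤ 3 / 4 := by nlinarith
  have h3m : (2 * (3 - m)) ^ 2 = 32 * (1 - p) := by rw [hp]; ring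
  have hB := B_aux hx hp2 hx2' hx3 hpx'
  rw [← h3m] at hB
  have h5 : 8 - 7 * x + p ≤ 2 * (3 - m) :=
    le_of_sq_le_sq hB (by linarith)
  have h6 : (x + p) / 2 ≤ 4 * x - 1 - m := by linarith
  have hp0 : 0 ≤ p := le_trans (sq_nonneg x) hx2'
  have h7 : ((x + p) / 2) ^ 2 ≤ (4 * x - 1 - m) ^ 2 := by
    have : 0 ≤ (x + p) / 2 := by linarith
    gcongr
  have h8 := sq_nonneg (x - p)
  have e : ((x + p) / 2) ^ 2 = x * p + (x - p) ^ 2 / 4 := by ring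
  linarith

/-- non-strict monotonicity in `Z` -/
lemma mono_Z_le {s ρ y Z Z₀ : ℝ} (hs0 : 0 ≤ s) (hs1 : s ≤ 1) (hρ0 : 0 ≤ ρ) (hρ1 : ρ < 1)
    (hy0 : 0 ≤ y) (hyZ : y ≤ Z₀) (hZ : Z₀ ≤ Z) :
    (Z₀ - s * y) ^ 2 - ρ * (y - s * Z₀) ^ 2 ≤ (Z - s * y) ^ 2 - ρ * (y - s * Z) ^ 2 := by
  rcases eq_or_lt_of_le hZ with h | h
  · rw [h]
  · exact (mono_Z hs0 hs1 hρ0 hρ1 hy0 hyZ h).le

/-- auxiliary estimate for case B -/
lemma sqrt_aux {x y γ s m : ℝ} (hx0 : 0 < x) (hγ0 : 0 ≤ γ) (hs0 : 0 ≤ s) (hs1 : s ≤ 1)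
    (hη : γ / (2 * x) ≤ m - (x + y)) :
    y + Real.sqrt (γ * (1 - s ^ 2)) ≤ m - x * s := by
  have h1s : 0 ≤ 1 - s ^ 2 := by nlinarith
  set e := Real.sqrt (γ * (1 - s ^ 2)) with he
  have he2 : e ^ 2 = γ * (1 - s ^ 2) := Real.sq_sqrt (mul_nonneg hγ0 h1s)
  have h0 : 0 ≤ x * (1 - s) := mul_nonneg hx0.le (by linarith)
  have h3 : 0 ≤ x * (1 - s) + γ / (2 * x) := by positivity
  have h2 : e ≤ x * (1 - s) + γ / (2 * x) := by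
    refine le_of_sq_le_sq ?_ h3
    have h4 : (x * (1 - s) + γ / (2 * x)) ^ 2
      = (x * (1 - s) - γ / (2 * x)) ^ 2 + γ * (1 - s) ^ 2 + γ * (1 - s ^ 2) := by
      field_simp; ring
    rw [he2, h4]
    have h5 : 0 ≤ γ * (1 - s) ^ 2 := by positivity
    have h6 := sq_nonneg (x * (1 - s) - γ / (2 * x))
    linarith
  linarith

lemma caseB_aux {ρ y γ s e : ℝ} (hρ0 : 0 ≤ ρ) (hρ1 : ρ < 1) (hs0 : 0 ≤ s) (hs1 : s ≤ 1)
    (hy0 : 0 ≤ y) (he0 : 0 ≤ e) (he2 : e ^ 2 = γ * (1 - s ^ 2)) :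
    (1 - s ^ 2) ^ 2 * γ ≤ (y + e - s * y) ^ 2 - ρ * (y - s * (y + e)) ^ 2 := by
  have h1s : 0 ≤ 1 - s ^ 2 := by nlinarith
  have h6 : ρ * (y - s * (y + e)) ^ 2 ≤ (y - s * (y + e)) ^ 2 :=
    mul_le_of_le_one_left (sq_nonneg _) hρ1.le
  have h7 : (y + e - s * y) ^ 2 - (y - s * (y + e)) ^ 2
    = (1 - s ^ 2) * e ^ 2 + 2 * (1 - s ^ 2) * (y * e) := by ring
  have h8 : 0 ≤ 2 * (1 - s ^ 2) * (y * e) := by
    have := mul_nonneg hy0 he0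
    positivity
  have h9 : (1 - s ^ 2) ^ 2 * γ = (1 - s ^ 2) * e ^ 2 := by rw [he2]; ring
  linarith

/-- The main real-variable inequality, in the variables `x, ρ`. -/
lemma main_real_aux {m x ρ s Y Z : ℝ} (hm1 : m ≤ 1) (hx0 : 0 < x)
    (hxρ : x ≤ ρ) (hρ1 : ρ < 1) (hp : x * ρ = (6 * m - 1 - m ^ 2) / 8)
    (hs0 : 0 ≤ s) (hs1 : s ≤ 1) (hY0 : 0 ≤ Y) (hY : Y ≤ x * (ρ - x) / (1 - x))
    (hq : (Z - s * Y) ^ 2 - ρ * (Y - s * Z) ^ 2 ≤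
      (1 - s ^ 2) ^ 2 * (x ^ 3 * ρ / (4 * (1 - x)))) :
    x * s + Z ≤ m := by
  have hx1 : 0 < 1 - x := by linarith
  have hρ0 : 0 < ρ := by linarith
  have hp2 : x * ρ ≤ 1 / 2 := by rw [hp]; nlinarith [sq_nonneg (m - 1)]
  set y := x * (ρ - x) / (1 - x) with hy
  set γ := x ^ 3 * ρ / (4 * (1 - x)) with hγ
  have hy0 : 0 ≤ y := div_nonneg (mul_nonneg hx0.le (by linarith)) hx1.le
  have hγ0 : 0 ≤ γ := by positivity
  have hphi : m - (x + y) = (4 * x - 1 - m) ^ 2 / (8 * (1 - x)) := by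
    rw [hy, eq_div_iff (by positivity)]
    have e : (m - (x + x * (ρ - x) / (1 - x))) * (8 * (1 - x))
      = 8 * ((m - x) * (1 - x) - x * (ρ - x)) := by
      field_simp
      ring
    rw [e]
    linear_combination (-8 : ℝ) * hp
  have hphi0 : x + y ≤ m := by
    have : 0 ≤ (4 * x - 1 - m) ^ 2 / (8 * (1 - x)) := by positivity
    linarith
  by_cases h : 2 * x - 1 ≤ (1 + 2 * x) * (ρ - x)
  · -- Case A
    have hT0 : 0 ≤ (x + y) ^ 2 - ρ * y ^ 2 - γ := by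
      have e : (x + y) ^ 2 - ρ * y ^ 2 - γ = x ^ 2 / (1 - x) ^ 2 *
        ((1 + ρ - 2 * x) ^ 2 - ρ * (ρ - x) ^ 2 - x * ρ * (1 - x) / 4) := by
        rw [hy, hγ]; field_simp; ring
      rw [e]
      exact mul_nonneg (by positivity) (A0_nonneg hx0 hxρ hρ1.le hp2)
    have hT1 : 0 ≤ (x + y) ^ 2 - ρ * (y - x) ^ 2 - 4 * γ := by
      have e : (x + y) ^ 2 - ρ * (y - x) ^ 2 - 4 * γ = x ^ 2 / (1 - x) ^ 2 *
        ((1 + ρ - 2 * x) ^ 2 - ρ * (1 - ρ) ^ 2 - x * ρ * (1 - x)) := by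
        rw [hy, hγ]; field_simp; ring
      rw [e]
      exact mul_nonneg (by positivity) (A1_nonneg hx0 hxρ hρ1.le h)
    have hT : (1 + s) ^ 2 * γ ≤ (x + y) ^ 2 - ρ * (y - s * x) ^ 2 := by
      have e : (x + y) ^ 2 - ρ * (y - s * x) ^ 2 - (1 + s) ^ 2 * γ =
        (1 - s) * ((x + y) ^ 2 - ρ * y ^ 2 - γ) + s * ((x + y) ^ 2 - ρ * (y - x) ^ 2 - 4 * γ)
        + (ρ * x ^ 2 + γ) * (s * (1 - s)) := by ring
      have h1 : 0 ≤ (1 - s) * ((x + y) ^ 2 - ρ * y ^ 2 - γ) := mul_nonneg (by linarith) hT0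
      have h2 : 0 ≤ s * ((x + y) ^ 2 - ρ * (y - x) ^ 2 - 4 * γ) := mul_nonneg hs0 hT1
      have h3 : 0 ≤ (ρ * x ^ 2 + γ) * (s * (1 - s)) :=
        mul_nonneg (by positivity) (mul_nonneg hs0 (by linarith))
      linarith
    have hZ : Z ≤ y + (1 - s) * x := by
      have h0 : 0 ≤ (1 - s) * x := mul_nonneg (by linarith) hx0.le
      refine Z_le hs0 hs1 hρ0.le hρ1 hY0 hY (by linarith) hq ?_
      have e : (y + (1 - s) * x - s * y) ^ 2 - ρ * (y - s * (y + (1 - s) * x)) ^ 2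
        = (1 - s) ^ 2 * ((x + y) ^ 2 - ρ * (y - s * x) ^ 2) := by ring
      have e2 : (1 - s ^ 2) ^ 2 * γ = (1 - s) ^ 2 * ((1 + s) ^ 2 * γ) := by ring
      rw [e, e2]
      exact mul_le_mul_of_nonneg_left hT (sq_nonneg _)
    have e3 : y + (1 - s) * x = x + y - x * s := by ring
    linarith
  · -- Case B
    push Not at h
    have hxhalf : 1 / 2 ≤ x := by
      by_contra hcon
      push Not at hcon
      have := mul_nonneg (by linarith : (0:ℝ) ≤ 1 + 2 * x) (by linarith : (0:ℝ) ≤ ρ - x)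
      linarith
    have hB := B_ineq hxhalf hxρ hm1 hp h.le
    have hη : γ / (2 * x) ≤ m - (x + y) := by
      rw [hphi, hγ]
      have e : x ^ 3 * ρ / (4 * (1 - x)) / (2 * x) = x * (x * ρ) / (8 * (1 - x)) := by
        field_simp; ring
      rw [e]
      exact div_le_div_of_nonneg_right hB (by positivity)
    have h1s : 0 ≤ 1 - s ^ 2 := by nlinarith only [hs0, hs1]
    have hZ0 := sqrt_aux hx0 hγ0 hs0 hs1 hη
    have he0 : 0 ≤ Real.sqrt (γ * (1 - s ^ 2)) := Real.sqrt_nonneg _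
    have he2 : Real.sqrt (γ * (1 - s ^ 2)) ^ 2 = γ * (1 - s ^ 2) :=
      Real.sq_sqrt (mul_nonneg hγ0 h1s)
    generalize Real.sqrt (γ * (1 - s ^ 2)) = e at hZ0 he0 he2
    have hZ : Z ≤ m - x * s := by
      refine Z_le hs0 hs1 hρ0.le hρ1 hY0 hY (by linarith) hq ?_
      exact (caseB_aux hρ0.le hρ1 hs0 hs1 hy0 he0 he2).trans
        (mono_Z_le hs0 hs1 hρ0.le hρ1 hy0 (by linarith : y ≤ y + e) hZ0)
    linarith

/-- The main real-variable inequality. -/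
lemma main_real {m r a s Y Z : ℝ} (hm1 : m ≤ 1) (hr0 : 0 < r)
    (hr : r ^ 2 = (6 * m - 1 - m ^ 2) / 8) (hra : r < a) (ha1 : a ≤ 1)
    (hs0 : 0 ≤ s) (hs1 : s ≤ 1) (hY0 : 0 ≤ Y)
    (hY : Y ≤ (r ^ 2 - (r * a) ^ 2) / (1 - r * a))
    (hq : (Z - s * Y) ^ 2 - (r / a) * (Y - s * Z) ^ 2 ≤
      (1 - s ^ 2) ^ 2 * ((r * a) ^ 2 * r ^ 2 / (4 * (1 - r * a)))) :
    r * a * s + Z ≤ m := by
  have ha0 : 0 < a := hr0.trans hra
  have hp : (r * a) * (r / a) = r ^ 2 := by field_simp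
  refine main_real_aux (x := r * a) (ρ := r / a) hm1 (by positivity) ?_ ?_ (hp.trans hr)
    hs0 hs1 hY0 ?_ ?_
  · rw [le_div_iff₀ ha0]; nlinarith [mul_pos hr0 ha0]
  · rw [div_lt_one ha0]; exact hra
  · refine hY.trans (le_of_eq ?_)
    rw [mul_sub, hp]; ring
  · refine hq.trans (le_of_eq ?_)
    have : (r * a) ^ 3 * (r / a) = (r * a) ^ 2 * r ^ 2 := by rw [← hp]; ring
    rw [this]

end Pool.Agent.H72.BohrReal
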