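import Mathlib
import Pool.Agent.H72.BohrReal
import Pool.Agent.H72.BohrL2
import Pool.Agent.H72.BohrPick

/-! The Bohr-type inequality for pairs `h, g` with `|g'| ≤ |h'|`. -/

namespace Pool.Agent.H72.BohrMain

open Complex Filter Topology Metric Set

/-- Cauchy-Schwarz for infinite sums. -/
lemma cs {f g : ℕ → ℝ} (hf : ∀ n, 0 ≤ f n) (hg : ∀ n, 0 ≤ g n)
    (hfs : Summable fun n => f n ^ 2) (hgs : Summable fun n => g n ^ 2) :
    Summable (fun n => f n * g n) ∧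
    ∑' n, f n * g n ≤ Real.sqrt (∑' n, f n ^ 2) * Real.sqrt (∑' n, g n ^ 2) := by
  have h2 : (2 : ℝ).HolderConjugate 2 := Real.HolderConjugate.two_two
  have e : ∀ w : ℕ → ℝ, (fun n => w n ^ (2:ℝ)) = fun n => w n ^ 2 := by
    intro w; funext n; exact Real.rpow_two _
  have := Real.summable_and_inner_le_Lp_mul_Lq_tsum_of_nonneg h2 hf hg (by rw [e]; exact hfs)
    (by rw [e]; exact hgs)
  simp only [Real.rpow_two] at this
  rw [Real.sqrt_eq_rpow, Real.sqrt_eq_rpow]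
  exact this

/-- Taylor coefficients at the origin. -/
noncomputable def tc (F : ℂ → ℂ) (n : ℕ) : ℂ := iteratedDeriv n F 0 / (n.factorial : ℂ)

lemma tc_hasSum {F : ℂ → ℂ} (hF : DifferentiableOn ℂ F (ball 0 1)) {z : ℂ} (hz : ‖z‖ < 1) :
    HasSum (fun n => tc F n * z ^ n) (F z) := by
  have := Complex.hasSum_taylorSeries_on_ball hF (by simpa using hz : z ∈ ball (0:ℂ) 1)
  convert! this using 1
  funext n
  unfold tc
  simp only [smul_eq_mul, sub_zero]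
  ring

lemma tc_deriv (F : ℂ → ℂ) (n : ℕ) : tc (deriv F) n = (n + 1) * tc F (n + 1) := by
  unfold tc
  rw [iteratedDeriv_succ', Nat.factorial_succ]
  have h1 : ((n : ℂ) + 1) ≠ 0 := by exact_mod_cast Nat.succ_ne_zero n
  have h2 : ((n.factorial : ℕ) : ℂ) ≠ 0 := by exact_mod_cast Nat.factorial_ne_zero n
  push_cast
  field_simp

lemma tc_zero (F : ℂ → ℂ) : tc F 0 = F 0 := by simp [tc]

lemma summable_norm_of {u : ℕ → ℂ} {t : ℝ} (ht0 : 0 ≤ t)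
    (h : Summable (fun n => u n * (t : ℂ) ^ n)) : Summable (fun n => ‖u n‖ * t ^ n) := by
  refine h.norm.congr fun n => ?_
  rw [norm_mul, norm_pow, Complex.norm_of_nonneg ht0]

lemma norm_lt_of {t : ℝ} (ht0 : 0 ≤ t) (ht1 : t < 1) : ‖(t : ℂ)‖ < 1 := by
  rw [Complex.norm_of_nonneg ht0]; exact ht1

/-- `ℓ²` comparison on the disc, with `y = t²`. -/
lemma L2_comp {u v : ℕ → ℂ} {G H : ℂ → ℂ}
    (hG : ∀ z : ℂ, ‖z‖ < 1 → HasSum (fun n => u n * z ^ n) (G z))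
    (hH : ∀ z : ℂ, ‖z‖ < 1 → HasSum (fun n => v n * z ^ n) (H z))
    (hle : ∀ z : ℂ, ‖z‖ < 1 → ‖G z‖ ≤ ‖H z‖) {y : ℝ} (hy0 : 0 ≤ y) (hy1 : y < 1) :
    Summable (fun n => ‖u n‖ ^ 2 * y ^ n) ∧ Summable (fun n => ‖v n‖ ^ 2 * y ^ n) ∧
    ∑' n, ‖u n‖ ^ 2 * y ^ n ≤ ∑' n, ‖v n‖ ^ 2 * y ^ n := by
  have ht0 := Real.sqrt_nonneg y
  have ht1 : Real.sqrt y < 1 := by
    rw [Real.sqrt_lt' one_pos]; simpa using hy1
  have hsq : Real.sqrt y ^ 2 = y := Real.sq_sqrt hy0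
  have h := BohrL2.L2_le (u := u) (v := v) (G := G) (H := H) ht0
    (summable_norm_of ht0 (hG _ (norm_lt_of ht0 ht1)).summable)
    (summable_norm_of ht0 (hH _ (norm_lt_of ht0 ht1)).summable)
    (fun z hz => hG z (by rw [hz]; exact ht1)) (fun z hz => hH z (by rw [hz]; exact ht1))
    (fun z hz => hle z (by rw [hz]; exact ht1))
  rw [hsq] at h
  exact h

/-- coefficients of `z W(z)` -/
def shift (w : ℕ → ℂ) : ℕ → ℂ
  | 0 => 0
  | n + 1 => w n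

lemma shift_hasSum {w : ℕ → ℂ} {z W : ℂ} (h : HasSum (fun n => w n * z ^ n) W) :
    HasSum (fun n => shift w n * z ^ n) (z * W) := by
  rw [← hasSum_nat_add_iff' 1]
  simp only [Finset.range_one, Finset.sum_singleton, shift, zero_mul, sub_zero]
  convert! h.mul_left z using 1
  funext n
  rw [pow_succ]; ring

lemma shift_tsum (w : ℕ → ℂ) {y : ℝ} (hs : Summable (fun n => ‖w n‖ ^ 2 * y ^ n)) :
    HasSum (fun n => ‖shift w n‖ ^ 2 * y ^ n) (y * ∑' n, ‖w n‖ ^ 2 * y ^ n) := by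
  rw [← hasSum_nat_add_iff' 1]
  simp only [Finset.range_one, Finset.sum_singleton, shift, norm_zero]
  norm_num
  convert! hs.hasSum.mul_left y using 1
  funext n
  rw [pow_succ]; ring

section Bounded

variable {h : ℂ → ℂ}

lemma psi_hasSum (hh : DifferentiableOn ℂ h (ball 0 1)) (h0 : h 0 = 0) {z : ℂ} (hz : ‖z‖ < 1) :
    HasSum (fun n => tc h (n + 1) * z ^ n) (dslope h 0 z) := by
  have hd := Complex.differentiableOn_dslope (f := h) (ball_mem_nhds (0:ℂ) one_pos)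
  rcases eq_or_ne z 0 with rfl | hz0
  · rw [dslope_same]
    have e : deriv h 0 = tc h 1 := by simp [tc, iteratedDeriv_one]
    rw [e]
    have := hasSum_single (f := fun n => tc h (n + 1) * (0:ℂ) ^ n) 0 (by
      intro n hn; simp [hn])
    simpa using this
  · rw [dslope_of_ne _ hz0, slope_def_field, h0, sub_zero, sub_zero]
    have h1 := tc_hasSum hh hz
    rw [← hasSum_nat_add_iff' 1] at h1
    simp only [Finset.range_one, Finset.sum_singleton, tc_zero, h0, zero_mul, sub_zero] at h1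
    convert! h1.mul_right z⁻¹ using 1
    funext n
    rw [pow_succ]
    field_simp

variable (hh : DifferentiableOn ℂ h (ball 0 1)) (h0 : h 0 = 0)
  (hb : ∀ z ∈ ball (0:ℂ) 1, ‖h z‖ ≤ 1)

include hh h0 hb

lemma psi_le {z : ℂ} (hz : z ∈ ball (0:ℂ) 1) : ‖dslope h 0 z‖ ≤ 1 := by
  have hm : MapsTo h (ball 0 1) (closedBall (h 0) 1) := by
    intro w hw
    rw [h0, mem_closedBall_zero_iff]
    exact hb w hw
  have := Complex.norm_dslope_le_div_of_mapsTo_ball hh hm hz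
  simpa using this

lemma psi_diff : DifferentiableOn ℂ (dslope h 0) (ball 0 1) :=
  (Complex.differentiableOn_dslope (ball_mem_nhds (0:ℂ) one_pos)).mpr hh

lemma tc_one_le : ‖tc h 1‖ ≤ 1 := by
  have h1 := psi_le hh h0 hb (mem_ball_self one_pos)
  rw [dslope_same] at h1
  have e : deriv h 0 = tc h 1 := by simp [tc, iteratedDeriv_one]
  rwa [e] at h1

/-- `∑ |a_{n+1}|² y^n ≤ 1`. -/
lemma sum_le_one {y : ℝ} (hy0 : 0 ≤ y) (hy1 : y < 1) :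
    Summable (fun n => ‖tc h (n + 1)‖ ^ 2 * y ^ n) ∧ ∑' n, ‖tc h (n + 1)‖ ^ 2 * y ^ n ≤ 1 := by
  have hone : ∀ z : ℂ, ‖z‖ < 1 → HasSum (fun n : ℕ => (if n = 0 then (1:ℂ) else 0) * z ^ n) 1 := by
    intro z _
    have := hasSum_single (f := fun n : ℕ => (if n = 0 then (1:ℂ) else 0) * z ^ n) 0 (by
      intro n hn; simp [hn])
    simpa using this
  have hL := L2_comp (G := dslope h 0) (H := fun _ => 1) (fun z hz => psi_hasSum hh h0 hz) hone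
    (fun z hz => by simpa using psi_le hh h0 hb (by simpa using hz)) hy0 hy1
  refine ⟨hL.1, hL.2.2.trans ?_⟩
  have := hasSum_single (f := fun n : ℕ => ‖(if n = 0 then (1:ℂ) else 0)‖ ^ 2 * y ^ n) 0 (by
      intro n hn; simp [hn])
  rw [this.tsum_eq]
  simp

/-- The sharp estimate for the tail. -/
lemma tail_le {y : ℝ} (hy0 : 0 ≤ y) (hy1 : y < 1) :
    Summable (fun n => ‖tc h (n + 2)‖ ^ 2 * y ^ (n + 1)) ∧
    (∑' n, ‖tc h (n + 2)‖ ^ 2 * y ^ (n + 1)) * (1 - ‖tc h 1‖ ^ 2 * y) ≤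
      y * (1 - ‖tc h 1‖ ^ 2) ^ 2 := by
  set c := tc h 1 with hc
  have hone : ∀ (d z : ℂ), HasSum (fun n : ℕ => (if n = 0 then d else 0) * z ^ n) d := by
    intro d z
    have := hasSum_single (f := fun n : ℕ => (if n = 0 then d else 0) * z ^ n) 0 (by
      intro n hn; simp [hn])
    simpa using this
  have h0mem : (0:ℂ) ∈ ball (0:ℂ) 1 := mem_ball_self one_pos
  have hψ0 : dslope h 0 0 = c := by
    rw [dslope_same]; simp [hc, tc, iteratedDeriv_one]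
  -- the pair inequality with `q = 1`
  have hpick : ∀ z : ℂ, ‖z‖ < 1 →
      ‖dslope h 0 z - c‖ ≤ ‖z * (1 - (starRingEnd ℂ) c * dslope h 0 z)‖ := by
    intro z hz
    have := BohrPick.pair_pick (p := dslope h 0) (q := fun _ => 1) (w₀ := c)
      (psi_diff hh h0 hb) (differentiableOn_const 1)
      (fun z hz => by simpa using psi_le hh h0 hb hz) one_ne_zero (by rw [hψ0, mul_one])
      (by simpa using hz : z ∈ ball (0:ℂ) 1)
    simpa using this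
  set u : ℕ → ℂ := fun n => tc h (n + 1) - (if n = 0 then c else 0) with hu
  set w : ℕ → ℂ := fun n => (if n = 0 then (1:ℂ) else 0) - (starRingEnd ℂ) c * tc h (n + 1) with hw
  have hus : ∀ z : ℂ, ‖z‖ < 1 → HasSum (fun n => u n * z ^ n) (dslope h 0 z - c) := by
    intro z hz
    convert! (psi_hasSum hh h0 hz).sub (hone c z) using 1
    funext n
    simp only [hu]; ring
  have hws : ∀ z : ℂ, ‖z‖ < 1 →
      HasSum (fun n => w n * z ^ n) (1 - (starRingEnd ℂ) c * dslope h 0 z) := by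
    intro z hz
    convert! (hone 1 z).sub ((psi_hasSum hh h0 hz).mul_left ((starRingEnd ℂ) c)) using 1
    funext n
    simp only [hw]; ring
  have hL := L2_comp hus (fun z hz => shift_hasSum (hws z hz)) hpick hy0 hy1
  obtain ⟨hL1, hL2, hL3⟩ := hL
  have hu0 : u 0 = 0 := by simp [hu, hc]
  have hun : ∀ n, u (n + 1) = tc h (n + 2) := by intro n; simp [hu]
  have hS1 : Summable (fun n => ‖tc h (n + 2)‖ ^ 2 * y ^ (n + 1)) := by
    have := (summable_nat_add_iff 1).mpr hL1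
    refine this.congr fun n => ?_
    rw [hun]
  refine ⟨hS1, ?_⟩
  set W := ∑' n, ‖tc h (n + 2)‖ ^ 2 * y ^ (n + 1) with hW
  have hLu : ∑' n, ‖u n‖ ^ 2 * y ^ n = W := by
    rw [hL1.tsum_eq_zero_add, hu0, hW]
    simp only [norm_zero, hun]
    norm_num
  have hw0 : ‖w 0‖ ^ 2 = (1 - ‖c‖ ^ 2) ^ 2 := by
    have : w 0 = ((1 - ‖c‖ ^ 2 : ℝ) : ℂ) := by
      simp only [hw, if_true, zero_add, ← hc]
      rw [mul_comm, Complex.mul_conj, Complex.normSq_eq_norm_sq]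
      push_cast; rfl
    rw [this, Complex.norm_real, Real.norm_eq_abs, sq_abs]
  have hwn : ∀ n, ‖w (n + 1)‖ ^ 2 = ‖c‖ ^ 2 * ‖tc h (n + 2)‖ ^ 2 := by
    intro n
    simp only [hw]
    simp [mul_pow]
  have hwsum : HasSum (fun n => ‖w n‖ ^ 2 * y ^ n) ((1 - ‖c‖ ^ 2) ^ 2 + ‖c‖ ^ 2 * W) := by
    rw [← hasSum_nat_add_iff' 1]
    simp only [Finset.range_one, Finset.sum_singleton, pow_zero, mul_one, hw0, hwn]
    rw [add_sub_cancel_left]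
    convert! hS1.hasSum.mul_left (‖c‖ ^ 2) using 1
    funext n; ring
  have hLv : ∑' n, ‖shift w n‖ ^ 2 * y ^ n = y * ((1 - ‖c‖ ^ 2) ^ 2 + ‖c‖ ^ 2 * W) := by
    rw [(shift_tsum w hwsum.summable).tsum_eq, hwsum.tsum_eq]
  rw [hLu, hLv] at hL3
  nlinarith

end Bounded

section Pair

variable {h g : ℂ → ℂ}

lemma deriv_hasSum (hh : DifferentiableOn ℂ h (ball 0 1)) {z : ℂ} (hz : ‖z‖ < 1) :
    HasSum (fun n : ℕ => ((n : ℂ) + 1) * tc h (n + 1) * z ^ n) (deriv h z) := by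
  have := tc_hasSum (hh.deriv isOpen_ball) hz
  simpa only [tc_deriv] using this

lemma summ_y {u : ℕ → ℂ} {G : ℂ → ℂ}
    (hG : ∀ z : ℂ, ‖z‖ < 1 → HasSum (fun n => u n * z ^ n) (G z)) {y : ℝ} (hy0 : 0 ≤ y)
    (hy1 : y < 1) : Summable (fun n => ‖u n‖ ^ 2 * y ^ n) :=
  (L2_comp hG hG (fun _ _ => le_rfl) hy0 hy1).1

lemma sq_div (n : ℕ) (w : ℂ) : ‖((n : ℂ) + 1) * w‖ ^ 2 / ((n : ℝ) + 1) ^ 2 = ‖w‖ ^ 2 := by
  have h1 : ‖((n : ℂ) + 1)‖ = (n : ℝ) + 1 := by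
    have : ((n : ℂ) + 1) = (((n : ℝ) + 1 : ℝ) : ℂ) := by push_cast; rfl
    rw [this, Complex.norm_of_nonneg (by positivity)]
  rw [norm_mul, h1, mul_pow]
  have : ((n : ℝ) + 1) ^ 2 ≠ 0 := by positivity
  field_simp

/-- Simple comparison of the `ℓ²` sums. -/
lemma pair_simple (hh : DifferentiableOn ℂ h (ball 0 1)) (hg : DifferentiableOn ℂ g (ball 0 1))
    (hd : ∀ z ∈ ball (0:ℂ) 1, ‖deriv g z‖ ≤ ‖deriv h z‖) {y : ℝ} (hy0 : 0 < y) (hy1 : y < 1) :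
    ∑' n, ‖tc g (n + 1)‖ ^ 2 * y ^ n ≤ ∑' n, ‖tc h (n + 1)‖ ^ 2 * y ^ n := by
  have hG := fun (z : ℂ) (hz : ‖z‖ < 1) => deriv_hasSum hg hz
  have hH := fun (z : ℂ) (hz : ‖z‖ < 1) => deriv_hasSum hh hz
  have := BohrL2.int_twice (α := fun n : ℕ => ‖((n : ℂ) + 1) * tc g (n + 1)‖ ^ 2)
    (β := fun n : ℕ => ‖((n : ℂ) + 1) * tc h (n + 1)‖ ^ 2) (fun n => by positivity)
    (fun n => by positivity) (fun y h0 h1 => summ_y hG h0 h1) (fun y h0 h1 => summ_y hH h0 h1)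
    (fun y h0 h1 => (L2_comp hG hH (fun z hz => hd z (by simpa using hz)) h0.le h1).2.2) hy0 hy1
  simpa only [sq_div] using this

/-- Sharp comparison. -/
lemma pair_sharp (hh : DifferentiableOn ℂ h (ball 0 1)) (hg : DifferentiableOn ℂ g (ball 0 1))
    (hd : ∀ z ∈ ball (0:ℂ) 1, ‖deriv g z‖ ≤ ‖deriv h z‖) {w₀ : ℂ} (hc : tc h 1 ≠ 0)
    (hw : tc g 1 = w₀ * tc h 1) {y : ℝ} (hy0 : 0 < y) (hy1 : y < 1) :
    Summable (fun n => ‖tc h (n + 2)‖ ^ 2 * y ^ (n + 2)) ∧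
    Summable (fun n => ‖tc g (n + 2)‖ ^ 2 * y ^ (n + 2)) ∧
    Summable (fun n => ‖tc g (n + 2) - w₀ * tc h (n + 2)‖ ^ 2 * y ^ (n + 2)) ∧
    Summable (fun n => ‖tc h (n + 2) - (starRingEnd ℂ) w₀ * tc g (n + 2)‖ ^ 2 * y ^ (n + 2)) ∧
    ∑' n, ‖tc g (n + 2) - w₀ * tc h (n + 2)‖ ^ 2 * y ^ (n + 2) ≤
      (1 - ‖w₀‖ ^ 2) ^ 2 * ‖tc h 1‖ ^ 2 * y ^ 2 / 4 +
      y * ∑' n, ‖tc h (n + 2) - (starRingEnd ℂ) w₀ * tc g (n + 2)‖ ^ 2 * y ^ (n + 2) := by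
  have hG := fun (z : ℂ) (hz : ‖z‖ < 1) => deriv_hasSum hg hz
  have hH := fun (z : ℂ) (hz : ‖z‖ < 1) => deriv_hasSum hh hz
  set u : ℕ → ℂ := fun n => ((n : ℂ) + 1) * (tc g (n + 1) - w₀ * tc h (n + 1)) with hu
  set v : ℕ → ℂ := fun n => ((n : ℂ) + 1) * (tc h (n + 1) - (starRingEnd ℂ) w₀ * tc g (n + 1))
    with hv
  have hus : ∀ z : ℂ, ‖z‖ < 1 → HasSum (fun n => u n * z ^ n) (deriv g z - w₀ * deriv h z) := by
    intro z hz
    convert! (hG z hz).sub ((hH z hz).mul_left w₀) using 1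
    funext n
    simp only [hu]; ring
  have hvs : ∀ z : ℂ, ‖z‖ < 1 →
      HasSum (fun n => v n * z ^ n) (deriv h z - (starRingEnd ℂ) w₀ * deriv g z) := by
    intro z hz
    convert! (hH z hz).sub ((hG z hz).mul_left ((starRingEnd ℂ) w₀)) using 1
    funext n
    simp only [hv]; ring
  have ed : ∀ F : ℂ → ℂ, deriv F 0 = tc F 1 := by intro F; simp [tc, iteratedDeriv_one]
  have hpick : ∀ z : ℂ, ‖z‖ < 1 → ‖deriv g z - w₀ * deriv h z‖ ≤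
      ‖z * (deriv h z - (starRingEnd ℂ) w₀ * deriv g z)‖ := by
    intro z hz
    exact BohrPick.pair_pick (hg.deriv isOpen_ball) (hh.deriv isOpen_ball) hd
      (by rw [ed]; exact hc) (by rw [ed, ed]; exact hw) (by simpa using hz)
  have hss := fun (z : ℂ) (hz : ‖z‖ < 1) => shift_hasSum (hvs z hz)
  have hI := BohrL2.int_twice (α := fun n : ℕ => ‖u n‖ ^ 2)
    (β := fun n : ℕ => ‖shift v n‖ ^ 2) (fun n => by positivity)
    (fun n => by positivity) (fun y h0 h1 => summ_y hus h0 h1) (fun y h0 h1 => summ_y hss h0 h1)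
    (fun y h0 h1 => (L2_comp hus hss hpick h0.le h1).2.2) hy0 hy1
  -- the left side
  have hu_eq : ∀ n : ℕ, ‖u n‖ ^ 2 / ((n : ℝ) + 1) ^ 2 = ‖tc g (n + 1) - w₀ * tc h (n + 1)‖ ^ 2 :=
    fun n => sq_div n _
  simp only [hu_eq] at hI
  -- summability of all the series
  have sF : ∀ {F : ℂ → ℂ} {a : ℕ → ℂ}, (∀ z : ℂ, ‖z‖ < 1 → HasSum (fun n => a n * z ^ n) (F z)) →
      Summable (fun n => ‖a (n + 2)‖ ^ 2 * y ^ (n + 2)) := by
    intro F a hF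
    exact (summable_nat_add_iff 2).mpr (summ_y hF hy0.le hy1)
  have sh := sF (fun z hz => tc_hasSum hh hz)
  have sg := sF (fun z hz => tc_hasSum hg hz)
  have sd : Summable (fun n => ‖tc g (n + 2) - w₀ * tc h (n + 2)‖ ^ 2 * y ^ (n + 2)) := by
    refine sF (F := fun z => g z - w₀ * h z) (a := fun n => tc g n - w₀ * tc h n) ?_
    intro z hz
    convert! (tc_hasSum hg hz).sub ((tc_hasSum hh hz).mul_left w₀) using 1
    funext n; ring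
  have se : Summable
      (fun n => ‖tc h (n + 2) - (starRingEnd ℂ) w₀ * tc g (n + 2)‖ ^ 2 * y ^ (n + 2)) := by
    refine sF (F := fun z => h z - (starRingEnd ℂ) w₀ * g z)
      (a := fun n => tc h n - (starRingEnd ℂ) w₀ * tc g n) ?_
    intro z hz
    convert! (tc_hasSum hh hz).sub ((tc_hasSum hg hz).mul_left ((starRingEnd ℂ) w₀)) using 1
    funext n; ring
  refine ⟨sh, sg, sd, se, ?_⟩
  have sd1 : Summable (fun n => ‖tc g (n + 2) - w₀ * tc h (n + 2)‖ ^ 2 * y ^ (n + 1)) := by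
    refine (sd.mul_right y⁻¹).congr fun n => ?_
    rw [pow_succ y (n + 1)]
    field_simp
  have hLHS : ∑' n, ‖tc g (n + 1) - w₀ * tc h (n + 1)‖ ^ 2 * y ^ n
      = ∑' n, ‖tc g (n + 2) - w₀ * tc h (n + 2)‖ ^ 2 * y ^ (n + 1) := by
    have s0 : Summable (fun n => ‖tc g (n + 1) - w₀ * tc h (n + 1)‖ ^ 2 * y ^ n) :=
      (summable_nat_add_iff 1).mp sd1
    rw [s0.tsum_eq_zero_add]
    rw [hw, sub_self, norm_zero]
    norm_num
  -- the right side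
  set f : ℕ → ℝ := fun n => ‖shift v n‖ ^ 2 / ((n : ℝ) + 1) ^ 2 * y ^ n with hf
  have hfs : Summable f := by
    refine Summable.of_nonneg_of_le (fun n => by positivity) (fun n => ?_)
      (summ_y hss hy0.le hy1)
    have h1 : ‖shift v n‖ ^ 2 / ((n : ℝ) + 1) ^ 2 ≤ ‖shift v n‖ ^ 2 := by
      refine div_le_self (by positivity) ?_
      have : (0 : ℝ) ≤ n := Nat.cast_nonneg n
      nlinarith
    exact mul_le_mul_of_nonneg_right h1 (pow_nonneg hy0.le n)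
  have hf0 : f 0 = 0 := by simp [hf, shift]
  have hf1 : f 1 = (1 - ‖w₀‖ ^ 2) ^ 2 * ‖tc h 1‖ ^ 2 * y / 4 := by
    have hv0 : v 0 = ((1 - ‖w₀‖ ^ 2 : ℝ) : ℂ) * tc h 1 := by
      simp only [hv, Nat.cast_zero, zero_add, one_mul, hw]
      have := Complex.mul_conj w₀
      rw [Complex.normSq_eq_norm_sq] at this
      push_cast at this ⊢
      linear_combination (-tc h 1) * this
    simp only [hf, shift, hv0, norm_mul, Complex.norm_real, Real.norm_eq_abs, mul_pow, sq_abs]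
    norm_num
    ring
  have hf2 : ∀ n, f (n + 2) ≤ ‖tc h (n + 2) - (starRingEnd ℂ) w₀ * tc g (n + 2)‖ ^ 2 * y ^ (n + 2) := by
    intro n
    simp only [hf, shift]
    refine mul_le_mul_of_nonneg_right ?_ (pow_nonneg hy0.le _)
    have e1 := sq_div (n + 1) (tc h (n + 2) - (starRingEnd ℂ) w₀ * tc g (n + 2))
    have hvn : v (n + 1) = (((n + 1 : ℕ) : ℂ) + 1) *
      (tc h (n + 2) - (starRingEnd ℂ) w₀ * tc g (n + 2)) := by simp only [hv]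
    rw [← e1, hvn]
    have h2 : (((n + 1 : ℕ) : ℝ) + 1) ^ 2 ≤ (((n + 2 : ℕ) : ℝ) + 1) ^ 2 := by
      push_cast
      have : (0 : ℝ) ≤ n := Nat.cast_nonneg n
      nlinarith
    exact div_le_div_of_nonneg_left (by positivity) (by positivity) h2
  have hRHS : ∑' n, f n ≤ (1 - ‖w₀‖ ^ 2) ^ 2 * ‖tc h 1‖ ^ 2 * y / 4 +
      ∑' n, ‖tc h (n + 2) - (starRingEnd ℂ) w₀ * tc g (n + 2)‖ ^ 2 * y ^ (n + 2) := by
    have h3 := hfs.sum_add_tsum_nat_add 2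
    rw [Finset.sum_range_succ, Finset.sum_range_one, hf0, hf1, zero_add] at h3
    rw [← h3]
    have h4 : ∑' n, f (n + 2) ≤
        ∑' n, ‖tc h (n + 2) - (starRingEnd ℂ) w₀ * tc g (n + 2)‖ ^ 2 * y ^ (n + 2) :=
      Summable.tsum_le_tsum hf2 ((summable_nat_add_iff 2).mpr hfs) se
    linarith
  have hfin := hI.trans hRHS
  rw [hLHS] at hfin
  have hmul : ∑' n, ‖tc g (n + 2) - w₀ * tc h (n + 2)‖ ^ 2 * y ^ (n + 2)
      = y * ∑' n, ‖tc g (n + 2) - w₀ * tc h (n + 2)‖ ^ 2 * y ^ (n + 1) := by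
    rw [← tsum_mul_left]
    refine tsum_congr fun n => ?_
    rw [pow_succ y (n + 1)]; ring
  rw [hmul]
  have := mul_le_mul_of_nonneg_left hfin hy0.le
  refine this.trans (le_of_eq ?_)
  ring

end Pair

lemma pointwise_quad {A B w : ℂ} {ρ : ℝ} (hρ1 : ρ ≤ 1) :
    (1 - ρ * ‖w‖ ^ 2) * ‖B‖ ^ 2 + (‖w‖ ^ 2 - ρ) * ‖A‖ ^ 2 - 2 * (1 - ρ) * ‖w‖ * (‖A‖ * ‖B‖) ≤
      ‖B - w * A‖ ^ 2 - ρ * ‖A - (starRingEnd ℂ) w * B‖ ^ 2 := by
  have h1 : ‖B - w * A‖ ^ 2 = ‖B‖ ^ 2 + ‖w‖ ^ 2 * ‖A‖ ^ 2 - 2 * (w * A * (starRingEnd ℂ) B).re := by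
    simp only [← Complex.normSq_eq_norm_sq, Complex.normSq_apply]
    simp
    ring
  have h2 : ‖A - (starRingEnd ℂ) w * B‖ ^ 2
      = ‖A‖ ^ 2 + ‖w‖ ^ 2 * ‖B‖ ^ 2 - 2 * (w * A * (starRingEnd ℂ) B).re := by
    simp only [← Complex.normSq_eq_norm_sq, Complex.normSq_apply]
    simp
    ring
  have h3 : (w * A * (starRingEnd ℂ) B).re ≤ ‖w‖ * (‖A‖ * ‖B‖) := by
    refine (Complex.re_le_norm _).trans (le_of_eq ?_)
    rw [norm_mul, norm_mul, RCLike.norm_conj]; ring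
  rw [h1, h2]
  have h4 : 0 ≤ (1 - ρ) * (‖w‖ * (‖A‖ * ‖B‖) - (w * A * (starRingEnd ℂ) B).re) :=
    mul_nonneg (by linarith) (by linarith)
  nlinarith

lemma quad_sum {A B : ℕ → ℂ} {w : ℂ} {ρ C : ℝ} (hρ0 : 0 ≤ ρ) (hρ1 : ρ ≤ 1)
    (sA : Summable (fun n => ‖A n‖ ^ 2 * ρ ^ (n + 2)))
    (sB : Summable (fun n => ‖B n‖ ^ 2 * ρ ^ (n + 2)))
    (sD : Summable (fun n => ‖B n - w * A n‖ ^ 2 * ρ ^ (n + 2)))
    (sE : Summable (fun n => ‖A n - (starRingEnd ℂ) w * B n‖ ^ 2 * ρ ^ (n + 2)))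
    (hle : ∑' n, ‖B n - w * A n‖ ^ 2 * ρ ^ (n + 2) ≤
      C + ρ * ∑' n, ‖A n - (starRingEnd ℂ) w * B n‖ ^ 2 * ρ ^ (n + 2)) :
    (Real.sqrt (∑' n, ‖B n‖ ^ 2 * ρ ^ (n + 2)) -
      ‖w‖ * Real.sqrt (∑' n, ‖A n‖ ^ 2 * ρ ^ (n + 2))) ^ 2 -
    ρ * (Real.sqrt (∑' n, ‖A n‖ ^ 2 * ρ ^ (n + 2)) -
      ‖w‖ * Real.sqrt (∑' n, ‖B n‖ ^ 2 * ρ ^ (n + 2))) ^ 2 ≤ C := by
  have hσ0 := Real.sqrt_nonneg ρ
  have hσ2 : Real.sqrt ρ ^ 2 = ρ := Real.sq_sqrt hρ0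
  have hwt : ∀ n : ℕ, (Real.sqrt ρ ^ (n + 2)) ^ 2 = ρ ^ (n + 2) := by
    intro n; rw [← pow_mul, mul_comm (n + 2) 2, pow_mul, hσ2]
  have eA : ∀ (X : ℕ → ℂ) (n : ℕ), (‖X n‖ * Real.sqrt ρ ^ (n + 2)) ^ 2 = ‖X n‖ ^ 2 * ρ ^ (n + 2) := by
    intro X n; rw [mul_pow, hwt]
  have hcs := cs (f := fun n => ‖A n‖ * Real.sqrt ρ ^ (n + 2))
    (g := fun n => ‖B n‖ * Real.sqrt ρ ^ (n + 2)) (fun n => by positivity) (fun n => by positivity)
    (by simpa only [eA] using sA) (by simpa only [eA] using sB)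
  simp only [eA] at hcs
  have e2 : (fun n => ‖A n‖ * Real.sqrt ρ ^ (n + 2) * (‖B n‖ * Real.sqrt ρ ^ (n + 2)))
      = fun n => ‖A n‖ * ‖B n‖ * ρ ^ (n + 2) := by
    funext n
    rw [← hwt n]; ring
  simp only [e2] at hcs
  obtain ⟨sAB, hAB⟩ := hcs
  have hA0 : 0 ≤ ∑' n, ‖A n‖ ^ 2 * ρ ^ (n + 2) := tsum_nonneg fun n => by positivity
  have hB0 : 0 ≤ ∑' n, ‖B n‖ ^ 2 * ρ ^ (n + 2) := tsum_nonneg fun n => by positivity
  have hU2 := Real.sq_sqrt hA0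
  have hV2 := Real.sq_sqrt hB0
  set U := Real.sqrt (∑' n, ‖A n‖ ^ 2 * ρ ^ (n + 2)) with hU
  set V := Real.sqrt (∑' n, ‖B n‖ ^ 2 * ρ ^ (n + 2)) with hV
  -- the summed pointwise inequality
  have hL : HasSum (fun n => (1 - ρ * ‖w‖ ^ 2) * (‖B n‖ ^ 2 * ρ ^ (n + 2)) +
      (‖w‖ ^ 2 - ρ) * (‖A n‖ ^ 2 * ρ ^ (n + 2)) -
      2 * (1 - ρ) * ‖w‖ * (‖A n‖ * ‖B n‖ * ρ ^ (n + 2)))
      ((1 - ρ * ‖w‖ ^ 2) * V ^ 2 + (‖w‖ ^ 2 - ρ) * U ^ 2 -
        2 * (1 - ρ) * ‖w‖ * ∑' n, ‖A n‖ * ‖B n‖ * ρ ^ (n + 2)) := by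
    rw [hU2, hV2]
    exact ((sB.hasSum.mul_left _).add (sA.hasSum.mul_left _)).sub (sAB.hasSum.mul_left _)
  have hR : HasSum (fun n => ‖B n - w * A n‖ ^ 2 * ρ ^ (n + 2) -
      ρ * (‖A n - (starRingEnd ℂ) w * B n‖ ^ 2 * ρ ^ (n + 2)))
      (∑' n, ‖B n - w * A n‖ ^ 2 * ρ ^ (n + 2) -
        ρ * ∑' n, ‖A n - (starRingEnd ℂ) w * B n‖ ^ 2 * ρ ^ (n + 2)) :=
    sD.hasSum.sub (sE.hasSum.mul_left _)
  have hmain := hasSum_le (fun n => ?_) hL hR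
  · have h5 : 0 ≤ (1 - ρ) * ‖w‖ * (U * V - ∑' n, ‖A n‖ * ‖B n‖ * ρ ^ (n + 2)) :=
      mul_nonneg (mul_nonneg (by linarith) (norm_nonneg _)) (by linarith)
    have e3 : (V - ‖w‖ * U) ^ 2 - ρ * (U - ‖w‖ * V) ^ 2 = (1 - ρ * ‖w‖ ^ 2) * V ^ 2 +
      (‖w‖ ^ 2 - ρ) * U ^ 2 - 2 * ((1 - ρ) * ‖w‖ * (U * V)) := by ring
    rw [e3]
    linarith
  · have hp := mul_le_mul_of_nonneg_right (pointwise_quad (A := A n) (B := B n) (w := w) hρ1)
      (pow_nonneg hρ0 (n + 2))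
    refine le_trans (le_of_eq ?_) (hp.trans (le_of_eq ?_)) <;> ring

lemma geom2 {x : ℝ} (hx0 : 0 ≤ x) (hx1 : x < 1) :
    HasSum (fun n : ℕ => x ^ (n + 2)) (x ^ 2 / (1 - x)) := by
  have := (hasSum_geometric_of_lt_one hx0 hx1).mul_left (x ^ 2)
  rw [← div_eq_mul_inv] at this
  convert! this using 1
  funext n; rw [pow_add]; ring

/-- Case I: `|b_1| ≤ r`. -/
lemma caseI {h g : ℂ → ℂ} (hh : DifferentiableOn ℂ h (ball 0 1))
    (hg : DifferentiableOn ℂ g (ball 0 1)) (h0 : h 0 = 0)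
    (hb : ∀ z ∈ ball (0:ℂ) 1, ‖h z‖ ≤ 1)
    (hd : ∀ z ∈ ball (0:ℂ) 1, ‖deriv g z‖ ≤ ‖deriv h z‖)
    {r : ℝ} (hr0 : 0 < r) (hr1 : r ^ 2 ≤ 1 / 2) (hbr : ‖tc g 1‖ ≤ r) :
    Summable (fun n => ‖tc g (n + 2)‖ * r ^ (n + 2)) ∧
    r * ‖tc g 1‖ + ∑' n, ‖tc g (n + 2)‖ * r ^ (n + 2) ≤ 2 * r ^ 2 := by
  have hr1' : r < 1 := by nlinarith
  -- partial sums
  have hpart : ∀ N : ℕ, ∑ n ∈ Finset.range N, ‖tc g (n + 1)‖ ^ 2 ≤ 1 := by
    intro N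
    have hlim : Tendsto (fun y : ℝ => ∑ n ∈ Finset.range N, ‖tc g (n + 1)‖ ^ 2 * y ^ n)
        (𝓝[<] 1) (𝓝 (∑ n ∈ Finset.range N, ‖tc g (n + 1)‖ ^ 2 * (1:ℝ) ^ n)) := by
      have hc : Continuous (fun y : ℝ => ∑ n ∈ Finset.range N, ‖tc g (n + 1)‖ ^ 2 * y ^ n) := by
        fun_prop
      exact (hc.tendsto 1).mono_left nhdsWithin_le_nhds
    simp only [one_pow, mul_one] at hlim
    refine le_of_tendsto hlim ?_
    have hmem : Set.Ioo (0:ℝ) 1 ∈ 𝓝[<] (1:ℝ) := Ioo_mem_nhdsLT zero_lt_one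
    filter_upwards [hmem] with y hy
    have hsg : Summable (fun n => ‖tc g (n + 1)‖ ^ 2 * y ^ n) := by
      have := (summable_nat_add_iff 1).mpr
        (summ_y (fun z hz => tc_hasSum hg hz) hy.1.le hy.2)
      refine (this.mul_right y⁻¹).congr fun n => ?_
      have := hy.1.ne'
      field_simp
      ring
    have h1 := hsg.sum_le_tsum (Finset.range N)
      (fun n _ => mul_nonneg (by positivity) (pow_nonneg hy.1.le n))
    exact h1.trans ((pair_simple hh hg hd hy.1 hy.2).trans (sum_le_one hh h0 hb hy.1.le hy.2).2)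
  have hs1 : Summable (fun n => ‖tc g (n + 1)‖ ^ 2) :=
    summable_of_sum_range_le (fun n => by positivity) hpart
  have ht1 : ∑' n, ‖tc g (n + 1)‖ ^ 2 ≤ 1 :=
    Real.tsum_le_of_sum_range_le (fun n => by positivity) hpart
  have hs2 : Summable (fun n => ‖tc g (n + 2)‖ ^ 2) := (summable_nat_add_iff 1).mpr hs1
  have ht2 : ∑' n, ‖tc g (n + 2)‖ ^ 2 ≤ 1 - ‖tc g 1‖ ^ 2 := by
    have := hs1.tsum_eq_zero_add
    simp only [zero_add] at this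
    linarith
  have hgs := geom2 (x := r ^ 2) (by positivity) (by linarith)
  have ep : ∀ n : ℕ, (r ^ (n + 2)) ^ 2 = (r ^ 2) ^ (n + 2) := by
    intro n; rw [← pow_mul, ← pow_mul, mul_comm]
  have hcs := cs (f := fun n => ‖tc g (n + 2)‖) (g := fun n => r ^ (n + 2))
    (fun n => norm_nonneg _) (fun n => by positivity) hs2 (by simpa only [ep] using hgs.summable)
  obtain ⟨hS, hT⟩ := hcs
  refine ⟨hS, ?_⟩
  simp only [ep] at hT
  rw [hgs.tsum_eq] at hT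
  set b := ‖tc g 1‖ with hbdef
  have hb0 : 0 ≤ b := norm_nonneg _
  set T := ∑' n, ‖tc g (n + 2)‖ ^ 2 with hTdef
  have hT0 : 0 ≤ T := tsum_nonneg fun n => by positivity
  have hQ0 : 0 ≤ (r ^ 2) ^ 2 / (1 - r ^ 2) := div_nonneg (by positivity) (by linarith)
  have hfin : Real.sqrt T * Real.sqrt ((r ^ 2) ^ 2 / (1 - r ^ 2)) ≤ r * (2 * r - b) := by
    rw [← Real.sqrt_mul hT0]
    refine Real.sqrt_le_iff.mpr ⟨mul_nonneg hr0.le (by linarith), ?_⟩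
    rw [mul_div_assoc', div_le_iff₀ (by linarith)]
    have h1 : T * (r ^ 2) ^ 2 ≤ (1 - b ^ 2) * (r ^ 2) ^ 2 :=
      mul_le_mul_of_nonneg_right ht2 (by positivity)
    refine h1.trans ?_
    have e : (r * (2 * r - b)) ^ 2 * (1 - r ^ 2) - (1 - b ^ 2) * (r ^ 2) ^ 2
        = r ^ 2 * ((r - b) * (r * (3 - 4 * r ^ 2) - b)) := by ring
    have h2 : 0 ≤ r ^ 2 * ((r - b) * (r * (3 - 4 * r ^ 2) - b)) := by
      refine mul_nonneg (by positivity) (mul_nonneg (by linarith) ?_)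
      nlinarith
    linarith
  linarith

/-- Case II: `r < |b_1|`. -/
lemma caseII {h g : ℂ → ℂ} (hh : DifferentiableOn ℂ h (ball 0 1))
    (hg : DifferentiableOn ℂ g (ball 0 1)) (h0 : h 0 = 0)
    (hb : ∀ z ∈ ball (0:ℂ) 1, ‖h z‖ ≤ 1)
    (hd : ∀ z ∈ ball (0:ℂ) 1, ‖deriv g z‖ ≤ ‖deriv h z‖)
    {m r : ℝ} (hm1 : m ≤ 1) (hr0 : 0 < r)
    (hr : r ^ 2 = (6 * m - 1 - m ^ 2) / 8) (hbr : r < ‖tc g 1‖) :
    Summable (fun n => ‖tc g (n + 2)‖ * r ^ (n + 2)) ∧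
    r * ‖tc g 1‖ + ∑' n, ‖tc g (n + 2)‖ * r ^ (n + 2) ≤ m := by
  have hr2 : r ^ 2 ≤ 1 / 2 := by rw [hr]; nlinarith [sq_nonneg (m - 1)]
  have hr1 : r < 1 := by nlinarith
  have ed : ∀ F : ℂ → ℂ, deriv F 0 = tc F 1 := by intro F; simp [tc, iteratedDeriv_one]
  have hab : ‖tc g 1‖ ≤ ‖tc h 1‖ := by
    have := hd 0 (mem_ball_self one_pos)
    rwa [ed, ed] at this
  have ha1 : ‖tc h 1‖ ≤ 1 := tc_one_le hh h0 hb
  set a := ‖tc h 1‖ with ha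
  have hra : r < a := hbr.trans_le hab
  have ha0 : 0 < a := hr0.trans hra
  have hc : tc h 1 ≠ 0 := norm_pos_iff.mp ha0
  set w₀ := tc g 1 / tc h 1 with hw₀
  have hw : tc g 1 = w₀ * tc h 1 := by rw [hw₀, div_mul_cancel₀ _ hc]
  set s := ‖w₀‖ with hs
  have hsa : ‖tc g 1‖ = a * s := by rw [hw, norm_mul, mul_comm]
  have hs0 : 0 ≤ s := norm_nonneg _
  have hs1 : s ≤ 1 := by
    rw [hs, hw₀, norm_div]
    exact div_le_one_of_le₀ hab (norm_nonneg _)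
  set ρ := r / a with hρ
  have hρ0 : 0 < ρ := div_pos hr0 ha0
  have hρ1 : ρ < 1 := by rw [hρ, div_lt_one ha0]; exact hra
  have haρ : a * ρ = r := by rw [hρ]; field_simp
  set x := r * a with hx
  have hx0 : 0 < x := mul_pos hr0 ha0
  have hx1 : x < 1 := by nlinarith
  have h1x : 0 < 1 - x := by linarith
  obtain ⟨sA, sB, sD, sE, hle⟩ := pair_sharp hh hg hd hc hw hρ0 hρ1
  have hq := quad_sum hρ0.le hρ1.le sA sB sD sE hle
  rw [← hs, ← ha] at hq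
  set UU := ∑' n, ‖tc h (n + 2)‖ ^ 2 * ρ ^ (n + 2) with hUU
  set VV := ∑' n, ‖tc g (n + 2)‖ ^ 2 * ρ ^ (n + 2) with hVV
  have hUU0 : 0 ≤ UU := tsum_nonneg fun n => by positivity
  have hVV0 : 0 ≤ VV := tsum_nonneg fun n => by positivity
  -- bound for U
  have hUle : UU * (1 - x) ≤ ρ ^ 2 * (1 - a ^ 2) ^ 2 := by
    have ht := (tail_le hh h0 hb hρ0.le hρ1).2
    rw [← ha] at ht
    have e1 : UU = ρ * ∑' n, ‖tc h (n + 2)‖ ^ 2 * ρ ^ (n + 1) := by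
      rw [hUU, ← tsum_mul_left]
      refine tsum_congr fun n => ?_
      rw [pow_succ ρ (n + 1)]; ring
    have e2 : a ^ 2 * ρ = x := by rw [hx, ← haρ]; ring
    rw [e2] at ht
    rw [e1]
    nlinarith [mul_le_mul_of_nonneg_left ht hρ0.le]
  -- Cauchy-Schwarz for the tail
  have hσ0 := Real.sqrt_pos.mpr hρ0
  have hσ2 : Real.sqrt ρ ^ 2 = ρ := Real.sq_sqrt hρ0.le
  set σ := Real.sqrt ρ with hσ
  have hgs := geom2 hx0.le hx1
  have eg : ∀ n : ℕ, ((r / σ) ^ (n + 2)) ^ 2 = x ^ (n + 2) := by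
    intro n
    have : (r / σ) ^ 2 = x := by
      rw [div_pow, hσ2, hρ, hx]; field_simp
    rw [← pow_mul, mul_comm (n + 2) 2, pow_mul, this]
  have ef : ∀ n : ℕ, (‖tc g (n + 2)‖ * σ ^ (n + 2)) ^ 2 = ‖tc g (n + 2)‖ ^ 2 * ρ ^ (n + 2) := by
    intro n
    rw [mul_pow, ← pow_mul, mul_comm (n + 2) 2, pow_mul, hσ2]
  have hcs := cs (f := fun n => ‖tc g (n + 2)‖ * σ ^ (n + 2)) (g := fun n => (r / σ) ^ (n + 2))
    (fun n => by positivity) (fun n => by positivity) (by simpa only [ef] using sB)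
    (by simpa only [eg] using hgs.summable)
  have e3 : (fun n => ‖tc g (n + 2)‖ * σ ^ (n + 2) * (r / σ) ^ (n + 2))
      = fun n => ‖tc g (n + 2)‖ * r ^ (n + 2) := by
    funext n
    rw [mul_assoc, ← mul_pow, mul_div_cancel₀ _ hσ0.ne']
  simp only [ef, eg, e3] at hcs
  rw [hgs.tsum_eq] at hcs
  obtain ⟨hS, hT⟩ := hcs
  refine ⟨hS, ?_⟩
  set R := x ^ 2 / (1 - x) with hR
  have hR0 : 0 ≤ R := by positivity
  have hR2 : Real.sqrt R ^ 2 = R := Real.sq_sqrt hR0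
  have hY : Real.sqrt R * Real.sqrt UU ≤ (r ^ 2 - x ^ 2) / (1 - x) := by
    rw [← Real.sqrt_mul hR0]
    have hnn : 0 ≤ r ^ 2 - x ^ 2 := by
      have : r ^ 2 - x ^ 2 = r ^ 2 * (1 - a ^ 2) := by rw [hx]; ring
      rw [this]
      exact mul_nonneg (by positivity) (by nlinarith)
    refine Real.sqrt_le_iff.mpr ⟨by positivity, ?_⟩
    rw [div_pow, le_div_iff₀ (by positivity)]
    have e4 : R * UU * (1 - x) ^ 2 = x ^ 2 * (UU * (1 - x)) := by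
      rw [hR]; field_simp
    rw [e4]
    have e5 : (r ^ 2 - x ^ 2) ^ 2 = x ^ 2 * (ρ ^ 2 * (1 - a ^ 2) ^ 2) := by
      have : x * ρ = r ^ 2 := by rw [hx, ← haρ]; ring
      have h6 : r ^ 2 - x ^ 2 = x * ρ * (1 - a ^ 2) := by
        rw [this, hx]; ring
      rw [h6]; ring
    rw [e5]
    exact mul_le_mul_of_nonneg_left hUle (by positivity)
  have hqq : (Real.sqrt R * Real.sqrt VV - s * (Real.sqrt R * Real.sqrt UU)) ^ 2 -
      (r / a) * (Real.sqrt R * Real.sqrt UU - s * (Real.sqrt R * Real.sqrt VV)) ^ 2 ≤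
      (1 - s ^ 2) ^ 2 * ((r * a) ^ 2 * r ^ 2 / (4 * (1 - r * a))) := by
    rw [← hρ, ← hx]
    have e6 : (Real.sqrt R * Real.sqrt VV - s * (Real.sqrt R * Real.sqrt UU)) ^ 2 -
      ρ * (Real.sqrt R * Real.sqrt UU - s * (Real.sqrt R * Real.sqrt VV)) ^ 2
      = Real.sqrt R ^ 2 * ((Real.sqrt VV - s * Real.sqrt UU) ^ 2 -
        ρ * (Real.sqrt UU - s * Real.sqrt VV) ^ 2) := by ring
    rw [e6, hR2]
    refine (mul_le_mul_of_nonneg_left hq hR0).trans (le_of_eq ?_)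
    rw [hR, ← haρ]
    field_simp
  have hfin := BohrReal.main_real hm1 hr0 hr hra ha1 hs0 hs1
    (mul_nonneg (Real.sqrt_nonneg R) (Real.sqrt_nonneg UU)) hY hqq
  have e7 : r * ‖tc g 1‖ = r * a * s := by rw [hsa]; ring
  rw [e7]
  linarith [mul_comm (Real.sqrt VV) (Real.sqrt R)]

/-- **Main theorem** (a Bombieri type theorem for pairs). If `h, g` are analytic in the unit disc,
`h 0 = g 0 = 0`, `|h| ≤ 1` and `|g'| ≤ |h'|`, then `∑ |b_n| r^n ≤ m` where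
`r^2 = (6 m - 1 - m^2) / 8`, i.e. `m = 3 - √(8 (1 - r^2))`. -/
theorem bohr_main {h g : ℂ → ℂ} (hh : DifferentiableOn ℂ h (ball 0 1))
    (hg : DifferentiableOn ℂ g (ball 0 1)) (h0 : h 0 = 0) (g0 : g 0 = 0)
    (hb : ∀ z ∈ ball (0:ℂ) 1, ‖h z‖ ≤ 1)
    (hd : ∀ z ∈ ball (0:ℂ) 1, ‖deriv g z‖ ≤ ‖deriv h z‖)
    {m r : ℝ} (hm1 : m ≤ 1) (hr0 : 0 < r)
    (hr : r ^ 2 = (6 * m - 1 - m ^ 2) / 8) :
    Summable (fun n => ‖tc g n‖ * r ^ n) ∧ ∑' n, ‖tc g n‖ * r ^ n ≤ m := by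
  have hr2 : r ^ 2 ≤ 1 / 2 := by rw [hr]; nlinarith [sq_nonneg (m - 1)]
  have hkey : Summable (fun n => ‖tc g (n + 2)‖ * r ^ (n + 2)) ∧
      r * ‖tc g 1‖ + ∑' n, ‖tc g (n + 2)‖ * r ^ (n + 2) ≤ m := by
    rcases le_or_gt ‖tc g 1‖ r with hle | hlt
    · obtain ⟨h1, h2⟩ := caseI hh hg h0 hb hd hr0 hr2 hle
      refine ⟨h1, h2.trans ?_⟩
      rw [hr]; nlinarith [sq_nonneg (m - 1)]
    · exact caseII hh hg h0 hb hd hm1 hr0 hr hlt
  obtain ⟨h1, h2⟩ := hkey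
  have hS : Summable (fun n => ‖tc g n‖ * r ^ n) := (summable_nat_add_iff 2).mp h1
  refine ⟨hS, ?_⟩
  rw [← hS.sum_add_tsum_nat_add 2, Finset.sum_range_succ, Finset.sum_range_one]
  rw [tc_zero, g0, norm_zero, pow_one]
  linarith [mul_comm r ‖tc g 1‖]

end Pool.Agent.H72.BohrMain
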